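import Pool.Agent.H2RJ.Julia

open Filter Topology Complex MeasureTheory Set Metric Matrix
open scoped Real ENNReal NNReal ComplexOrder

namespace Pool.Agent.H2RJ

open Pool.Agent.RegJ Pool.Agent.RegK

set_option linter.unusedSectionVars false

variable {m n : Type*} [Fintype m] [DecidableEq m] [Fintype n] [DecidableEq n]

lemma SV11 (μ : ℂ) (c : ℝ) (x : m → ℂ) (y : n → ℂ) (z : ℂ) :
    (SV μ c x y z).toBlocks₁₁ = 1 - kz μ c z • vecMulVec x (star x) := by
  ext i j
  simp [SV, toBlocks₁₁, NV, bv, vecMulVec_apply, Matrix.one_apply, sub_eq_add_neg]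

lemma SV12 (μ : ℂ) (c : ℝ) (x : m → ℂ) (y : n → ℂ) (z : ℂ) :
    (SV μ c x y z).toBlocks₁₂ = kz μ c z • vecMulVec x (star y) := by
  ext i j
  simp [SV, toBlocks₁₂, NV, bv, vecMulVec_apply, Matrix.one_apply]

lemma SV21 (μ : ℂ) (c : ℝ) (x : m → ℂ) (y : n → ℂ) (z : ℂ) :
    (SV μ c x y z).toBlocks₂₁ = -(kz μ c z • vecMulVec y (star x)) := by
  ext i j
  simp [SV, toBlocks₂₁, NV, bv, vecMulVec_apply, Matrix.one_apply]

lemma SV22 (μ : ℂ) (c : ℝ) (x : m → ℂ) (y : n → ℂ) (z : ℂ) :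
    (SV μ c x y z).toBlocks₂₂ = 1 + kz μ c z • vecMulVec y (star y) := by
  ext i j
  simp [SV, toBlocks₂₂, NV, bv, vecMulVec_apply, Matrix.one_apply]

lemma vv_vec {a b : Type*} [Fintype b] (u : a → ℂ) (v w : b → ℂ) :
    vecMulVec u v *ᵥ w = (v ⬝ᵥ w) • u := by
  ext i
  simp only [mulVec, vecMulVec_apply, dotProduct, Pi.smul_apply, smul_eq_mul, Finset.sum_mul]
  refine Finset.sum_congr rfl fun k _ => ?_
  ring

/-- the algebra of the elementary factor -/
lemma contact_alg {g : Matrix n m ℂ} {x : m → ℂ} {y : n → ℂ} (hx : nsq x = 1) (hy : nsq y = 1)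
    (κ : ℂ) {E : Matrix n n ℂ}
    (hE : E * (1 - κ • vecMulVec (g *ᵥ x + y) (star y)) = 1) :
    (E * (g + κ • vecMulVec (g *ᵥ x + y) (star x))) * (κ • vecMulVec x (star y))
      + (1 + κ • vecMulVec y (star y)) = E ∧
    (E * (g + κ • vecMulVec (g *ᵥ x + y) (star x))) * (1 - κ • vecMulVec x (star x))
      + -(κ • vecMulVec y (star x)) = E * g := by
  set u := g *ᵥ x + y with hu
  have hxx : star x ⬝ᵥ x = 1 := by rw [star_dot_self, hx]; simp
  have hyy : star y ⬝ᵥ y = 1 := by rw [star_dot_self, hy]; simp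
  have hgx : vecMulVec (g *ᵥ x) (star y) = vecMulVec u (star y) - vecMulVec y (star y) := by
    rw [hu, add_vecMulVec, add_sub_cancel_right]
  have hgx' : vecMulVec (g *ᵥ x) (star x) = vecMulVec u (star x) - vecMulVec y (star x) := by
    rw [hu, add_vecMulVec, add_sub_cancel_right]
  have k1 : (g + κ • vecMulVec u (star x)) * (κ • vecMulVec x (star y))
      + (1 - κ • vecMulVec u (star y)) * (1 + κ • vecMulVec y (star y)) = 1 := by
    simp only [Matrix.mul_smul, Matrix.mul_add, Matrix.mul_one, Matrix.mul_vecMulVec, add_mulVec,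
      sub_mulVec, one_mulVec, smul_mulVec, vv_vec, hxx, hyy, one_smul, add_vecMulVec,
      sub_vecMulVec, smul_vecMulVec, hgx, smul_add, smul_sub]
    abel
  have k2 : (g + κ • vecMulVec u (star x)) * (1 - κ • vecMulVec x (star x))
      + (1 - κ • vecMulVec u (star y)) * (-(κ • vecMulVec y (star x))) = g := by
    simp only [Matrix.mul_smul, Matrix.mul_sub, Matrix.mul_neg, Matrix.mul_one,
      Matrix.mul_vecMulVec, add_mulVec,
      sub_mulVec, one_mulVec, smul_mulVec, vv_vec, hxx, hyy, one_smul, add_vecMulVec,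
      sub_vecMulVec, smul_vecMulVec, hgx', smul_add, smul_sub]
    abel
  constructor
  · have : (1 + κ • vecMulVec y (star y))
        = (E * (1 - κ • vecMulVec u (star y))) * (1 + κ • vecMulVec y (star y)) := by
      rw [hE, Matrix.one_mul]
    rw [this, Matrix.mul_assoc, Matrix.mul_assoc, ← Matrix.mul_add, k1, Matrix.mul_one]
  · have : -(κ • vecMulVec y (star x))
        = (E * (1 - κ • vecMulVec u (star y))) * (-(κ • vecMulVec y (star x))) := by
      rw [hE, Matrix.one_mul]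
    rw [this, Matrix.mul_assoc, Matrix.mul_assoc, ← Matrix.mul_add, k2]

/-- contractivity on the boundary -/
lemma contact_bdry {g : Matrix n m ℂ} (hg : ∀ v, nsq (g *ᵥ v) ≤ nsq v) {x : m → ℂ} {y : n → ℂ}
    (hx : nsq x = 1) (hy : nsq y = 1) {κ : ℂ} (hκ : κ.re = 0) {E : Matrix n n ℂ}
    (hE : E * (1 - κ • vecMulVec (g *ᵥ x + y) (star y)) = 1) (v : m → ℂ) :
    nsq ((E * (g + κ • vecMulVec (g *ᵥ x + y) (star x))) *ᵥ v) ≤ nsq v := by
  set u := g *ᵥ x + y with hu
  set F := g + κ • vecMulVec u (star x) with hF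
  set e := (1 : Matrix n n ℂ) - κ • vecMulVec u (star y) with he
  have hgs : ∀ a, nsq (gᴴ *ᵥ a) ≤ nsq a := contr_star hg
  have key : ∀ a : n → ℂ, nsq ((E * F)ᴴ *ᵥ a) ≤ nsq a := by
    intro a
    set b := Eᴴ *ᵥ a with hb
    have ha : a = eᴴ *ᵥ b := by
      rw [hb, mulVec_mulVec, ← conjTranspose_mul, hE, conjTranspose_one, one_mulVec]
    have h1 : (E * F)ᴴ *ᵥ a = Fᴴ *ᵥ b := by
      rw [conjTranspose_mul, ← mulVec_mulVec]
    set s := star u ⬝ᵥ b with hs
    have h2 : Fᴴ *ᵥ b = gᴴ *ᵥ b + (star κ * s) • x := by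
      rw [hF, conjTranspose_add, conjTranspose_smul, conjTranspose_vecMulVec, star_star,
        add_mulVec, smul_mulVec, vv_vec, smul_smul]
    have h3 : eᴴ *ᵥ b = b + -((star κ * s) • y) := by
      rw [he, conjTranspose_sub, conjTranspose_one, conjTranspose_smul, conjTranspose_vecMulVec,
        star_star, sub_mulVec, one_mulVec, smul_mulVec, vv_vec, smul_smul, sub_eq_add_neg]
    have e1 : nsq (Fᴴ *ᵥ b) = nsq (gᴴ *ᵥ b) + 2 * ((star κ * s) * (star (gᴴ *ᵥ b) ⬝ᵥ x)).re
        + ‖star κ * s‖ ^ 2 := by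
      rw [h2, nsq_add, dotProduct_smul, smul_eq_mul, nsq_smul, hx, mul_one]
    have e2 : nsq (eᴴ *ᵥ b) = nsq b - 2 * ((star κ * s) * (star b ⬝ᵥ y)).re
        + ‖star κ * s‖ ^ 2 := by
      rw [h3, nsq_add, dotProduct_neg, dotProduct_smul, smul_eq_mul, nsq_neg, nsq_smul, hy,
        mul_one, Complex.neg_re]
      ring
    have e3 : star (gᴴ *ᵥ b) ⬝ᵥ x = star b ⬝ᵥ (g *ᵥ x) := by
      rw [star_mulVec, conjTranspose_conjTranspose, ← dotProduct_mulVec]
    have e4 : (star κ * s) * (star (gᴴ *ᵥ b) ⬝ᵥ x) + (star κ * s) * (star b ⬝ᵥ y)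
        = star κ * (s * star s) := by
      rw [e3, ← mul_add, ← dotProduct_add, ← hu, hs, star_dot_comm b u]
      ring
    have e5 : (star κ * (s * star s)).re = 0 := by
      have : s * star s = ((‖s‖ ^ 2 : ℝ) : ℂ) := by
        rw [Complex.star_def, Complex.mul_conj, Complex.normSq_eq_norm_sq]
      rw [this, mul_comm, Complex.re_ofReal_mul]
      simp [hκ]
    have e6 := congrArg Complex.re e4
    rw [Complex.add_re, e5] at e6
    rw [h1, ha, e1, e2]
    have := hgs b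
    linarith
  have := contr_star key v
  rwa [conjTranspose_conjTranspose] at this


lemma norm_dot_le {a b : n → ℂ} {A B : ℝ} (ha : nsq a ≤ A) (hb : nsq b ≤ B) (hA : 0 ≤ A) :
    ‖star a ⬝ᵥ b‖ ^ 2 ≤ A * B :=
  (cs a b).trans (mul_le_mul ha hb (nsq_nonneg b) hA)

/-- **Contact with the sphere.** If `g` is a Schur function and `(g(z) x + y)/(lam - z)` is bounded
for unit vectors `x`, `y`, then an elementary A-singular function divides. -/
theorem contact {g : ℂ → Matrix n m ℂ} {lam : ℂ} {x : m → ℂ} {y : n → ℂ} {C : ℝ}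
    (hlam : ‖lam‖ = 1) (hx : nsq x = 1) (hy : nsq y = 1) (hg : IsSchur g)
    (hC : ∀ z ∈ disc, nsq (g z *ᵥ x + y) ≤ C * ‖lam - z‖ ^ 2) :
    ∃ c : ℝ, 0 < c ∧ ∃ g' : ℂ → Matrix n m ℂ, IsSchur g' ∧
      ∀ z ∈ disc, (g' z * (SV ((starRingEnd ℂ) lam) c x y z).toBlocks₁₂
          + (SV ((starRingEnd ℂ) lam) c x y z).toBlocks₂₂) * g z
        = g' z * (SV ((starRingEnd ℂ) lam) c x y z).toBlocks₁₁
          + (SV ((starRingEnd ℂ) lam) c x y z).toBlocks₂₁ := by
  set μ := (starRingEnd ℂ) lam with hμdef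
  have hμ : ‖μ‖ = 1 := by rw [hμdef, RCLike.norm_conj, hlam]
  have hll : μ * lam = 1 := by
    rw [hμdef, mul_comm, Complex.mul_conj, Complex.normSq_eq_norm_sq, hlam]; simp
  have hden : ∀ z, ‖(1 : ℂ) - μ * z‖ = ‖lam - z‖ := by
    intro z
    have : (1 : ℂ) - μ * z = μ * (lam - z) := by rw [mul_sub, hll]
    rw [this, norm_mul, hμ, one_mul]
  have h0d : (0 : ℂ) ∈ disc := by simp
  have hC0 : 0 ≤ C := by
    have := (nsq_nonneg _).trans (hC 0 h0d)
    rw [sub_zero, hlam] at this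
    linarith
  set M : ℝ := 4 * C + 1 with hM
  have hM1 : 1 ≤ M := by linarith
  set c : ℝ := 1 / (2 * M) with hc
  have hcpos : 0 < c := by positivity
  set kk : ℂ → ℂ := fun z => (1 + μ * z) / (1 - μ * z) with hkk
  set u : ℂ → n → ℂ := fun z => g z *ᵥ x + y with hu
  set w : ℂ → n → ℂ := fun z => kk z • u z with hw
  have hga : ∀ z ∈ disc, AnalyticPt g z := analyticPt_iff.1 hg.1
  have hgc : ∀ z ∈ disc, ∀ v, nsq (g z *ᵥ v) ≤ nsq v := fun z hz => (one_sub_iff _).1 (hg.2 z hz)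
  have hkka : ∀ z ∈ disc, AnalyticAt ℂ kk z := by
    intro z hz
    have h1 := one_sub_mul_ne hμ hz
    simp only [hkk]
    fun_prop (disch := exact h1)
  have hwn : ∀ z ∈ disc, nsq (w z) ≤ 4 * C := by
    intro z hz
    have hz' : ‖z‖ < 1 := by simpa [disc] using hz
    have h1 := one_sub_mul_ne hμ hz
    have h2 : 0 < ‖(1 : ℂ) - μ * z‖ := norm_pos_iff.2 h1
    have h3 : ‖(1 : ℂ) + μ * z‖ ≤ 2 := by
      have := norm_add_le (1 : ℂ) (μ * z)
      rw [norm_one, norm_mul, hμ, one_mul] at this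
      linarith
    simp only [hw]
    rw [nsq_smul, hkk]
    simp only
    rw [norm_div, div_pow, div_mul_eq_mul_div, div_le_iff₀ (by positivity)]
    have h4 := hC z hz
    rw [← hden z] at h4
    calc ‖(1 : ℂ) + μ * z‖ ^ 2 * nsq (u z) ≤ 2 ^ 2 * (C * ‖(1 : ℂ) - μ * z‖ ^ 2) := by
          apply mul_le_mul _ h4 (nsq_nonneg _) (by positivity)
          exact pow_le_pow_left₀ (norm_nonneg _) h3 2
      _ = 4 * C * ‖(1 : ℂ) - μ * z‖ ^ 2 := by ring
  have hwi : ∀ z ∈ disc, ∀ i, ‖w z i‖ ≤ M := by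
    intro z hz i
    have h1 := (norm_sq_le_nsq (w z) i).trans (hwn z hz)
    nlinarith [norm_nonneg (w z i)]
  have hyi : ∀ i, ‖y i‖ ≤ 1 := by
    intro i
    have h1 := norm_sq_le_nsq y i
    rw [hy] at h1
    nlinarith [norm_nonneg (y i)]
  have hxi : ∀ i, ‖x i‖ ≤ 1 := by
    intro i
    have h1 := norm_sq_le_nsq x i
    rw [hx] at h1
    nlinarith [norm_nonneg (x i)]
  have hua : ∀ z ∈ disc, ∀ i, AnalyticAt ℂ (fun z => u z i) z := by
    intro z hz i
    simp only [hu, Pi.add_apply, mulVec, dotProduct]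
    refine AnalyticAt.add (Finset.analyticAt_fun_sum _ fun j _ => ?_) analyticAt_const
    exact (hga z hz i j).mul analyticAt_const
  have hwa : ∀ z ∈ disc, ∀ i, AnalyticAt ℂ (fun z => w z i) z := fun z hz i =>
    (hkka z hz).mul (hua z hz i)
  set t : ℂ → ℂ := fun z => star y ⬝ᵥ w z with ht
  have hta : ∀ z ∈ disc, AnalyticAt ℂ t z := by
    intro z hz
    simp only [ht, dotProduct]
    exact Finset.analyticAt_fun_sum _ fun j _ => analyticAt_const.mul (hwa z hz j)
  have htb : ∀ z ∈ disc, ‖(c : ℂ) * t z‖ ≤ 1 / 2 := by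
    intro z hz
    have h1 := norm_dot_le hy.le (hwn z hz) zero_le_one
    have h2 : ‖t z‖ ≤ M := by
      simp only [ht]
      nlinarith [norm_nonneg (star y ⬝ᵥ w z)]
    rw [norm_mul, Complex.norm_real, Real.norm_eq_abs, abs_of_pos hcpos, hc]
    rw [div_mul_eq_mul_div, one_mul, div_le_iff₀ (by positivity)]
    linarith
  have hdb : ∀ z ∈ disc, 1 / 2 ≤ ‖(1 : ℂ) - c * t z‖ := by
    intro z hz
    have := norm_sub_norm_le (1 : ℂ) (c * t z)
    rw [norm_one] at this
    linarith [htb z hz]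
  have hd0 : ∀ z ∈ disc, (1 : ℂ) - c * t z ≠ 0 := by
    intro z hz h
    have := hdb z hz
    rw [h, norm_zero] at this
    norm_num at this
  set e : (n → ℂ) → Matrix n n ℂ := fun w => 1 - (c : ℂ) • vecMulVec w (star y) with he
  set Ef : (n → ℂ) → Matrix n n ℂ := fun w =>
    1 + ((c : ℂ) / (1 - c * (star y ⬝ᵥ w))) • vecMulVec w (star y) with hEf
  have hEe : ∀ w : n → ℂ, (1 : ℂ) - c * (star y ⬝ᵥ w) ≠ 0 → Ef w * e w = 1 := by
    intro w hw0
    simp only [hEf, he]
    rw [Matrix.add_mul, Matrix.one_mul, Matrix.mul_sub, Matrix.mul_one, Matrix.smul_mul,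
      Matrix.mul_smul, Matrix.mul_vecMulVec, vv_vec, smul_vecMulVec, smul_smul, smul_smul]
    rw [← sub_smul, sub_add_eq_add_sub, add_sub_assoc, ← sub_smul]
    have : ((c : ℂ) / (1 - c * (star y ⬝ᵥ w)) - (c : ℂ) / (1 - c * (star y ⬝ᵥ w)) * c *
        (star y ⬝ᵥ w) - c) = 0 := by
      field_simp
      ring
    rw [this, zero_smul, add_zero]
  set E : ℂ → Matrix n n ℂ := fun z => Ef (w z) with hEdef
  set F : ℂ → Matrix n m ℂ := fun z => g z + (c : ℂ) • vecMulVec (w z) (star x) with hF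
  have hEa : ∀ z ∈ disc, AnalyticPt E z := by
    intro z hz i j
    have h1 := hd0 z hz
    have h2 := hta z hz
    have h3 := hwa z hz i
    have h4 : AnalyticAt ℂ (fun z => (c : ℂ) / (1 - c * t z)) z :=
      analyticAt_const.div (analyticAt_const.sub (analyticAt_const.mul h2)) h1
    have h5 : AnalyticAt ℂ (fun z => (1 : Matrix n n ℂ) i j + ((c : ℂ) / (1 - c * t z)) *
        (w z i * star (y j))) z :=
      analyticAt_const.add (h4.mul (h3.mul analyticAt_const))
    exact h5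
  have hFa : ∀ z ∈ disc, AnalyticPt F z := by
    intro z hz i j
    have h5 : AnalyticAt ℂ (fun z => g z i j + (c : ℂ) * (w z i * star (x j))) z :=
      (hga z hz i j).add (analyticAt_const.mul ((hwa z hz i).mul analyticAt_const))
    exact h5
  have hEb : ∀ z ∈ disc, ∀ i j, ‖E z i j‖ ≤ 2 := by
    intro z hz i j
    change ‖(1 : Matrix n n ℂ) i j + ((c : ℂ) / (1 - c * t z)) * (w z i * star (y j))‖ ≤ 2
    have h1 : ‖(1 : Matrix n n ℂ) i j‖ ≤ 1 := by
      rw [Matrix.one_apply]; split_ifs <;> simp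
    have h2 : ‖((c : ℂ) / (1 - c * t z))‖ ≤ 2 * c := by
      rw [norm_div, Complex.norm_real, Real.norm_eq_abs, abs_of_pos hcpos,
        div_le_iff₀ (norm_pos_iff.2 (hd0 z hz))]
      nlinarith [hdb z hz]
    have h3 : ‖w z i * star (y j)‖ ≤ M := by
      rw [norm_mul, norm_star]
      calc ‖w z i‖ * ‖y j‖ ≤ M * 1 :=
            mul_le_mul (hwi z hz i) (hyi j) (norm_nonneg _) (by linarith)
        _ = M := mul_one M
    refine (norm_add_le _ _).trans ?_
    rw [norm_mul]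
    have h4 : ‖((c : ℂ) / (1 - c * t z))‖ * ‖w z i * star (y j)‖ ≤ (2 * c) * M :=
      mul_le_mul h2 h3 (norm_nonneg _) (by positivity)
    have h5 : (2 * c) * M = 1 := by rw [hc]; field_simp
    linarith
  have hFb : ∀ z ∈ disc, ∀ i j, ‖F z i j‖ ≤ 2 := by
    intro z hz i j
    change ‖g z i j + (c : ℂ) * (w z i * star (x j))‖ ≤ 2
    have h1 : ‖g z i j‖ ≤ 1 := entry_le_one (hgc z hz) i j
    have h3 : ‖w z i * star (x j)‖ ≤ M := by
      rw [norm_mul, norm_star]
      calc ‖w z i‖ * ‖x j‖ ≤ M * 1 :=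
            mul_le_mul (hwi z hz i) (hxi j) (norm_nonneg _) (by linarith)
        _ = M := mul_one M
    refine (norm_add_le _ _).trans ?_
    rw [norm_mul, Complex.norm_real, Real.norm_eq_abs, abs_of_pos hcpos]
    have h4 : c * ‖w z i * star (x j)‖ ≤ c * M := mul_le_mul_of_nonneg_left h3 hcpos.le
    have h5 : c * M = 1 / 2 := by rw [hc]; field_simp
    linarith
  set g' : ℂ → Matrix n m ℂ := fun z => E z * F z with hg'
  have hg'a : ∀ z ∈ disc, AnalyticPt g' z := fun z hz => (hEa z hz).mul (hFa z hz)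
  have hg'm : MajM g' := (MajM.of_bound hEb).mul (MajM.of_bound hFb)
  have hEe1 : ∀ z ∈ disc, E z * (1 - kz μ c z • vecMulVec (g z *ᵥ x + y) (star y)) = 1 := by
    intro z hz
    have h1 := hEe (w z) (hd0 z hz)
    have h2 : kz μ c z • vecMulVec (g z *ᵥ x + y) (star y)
        = (c : ℂ) • vecMulVec (w z) (star y) := by
      simp only [hw, hu, hkk, kz, smul_vecMulVec, smul_smul]
    rw [h2]
    exact h1
  have hFe : ∀ z, F z = g z + kz μ c z • vecMulVec (g z *ᵥ x + y) (star x) := by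
    intro z
    simp only [hF, hw, hu, hkk, kz, smul_vecMulVec, smul_smul]
  refine ⟨c, hcpos, g', ⟨analyticPt_iff.2 hg'a, ?_⟩, ?_⟩
  · -- boundary values
    have hGbd : ∀ᵐ ζ ∂σ, ∃ Γ, HasBdryValue g ζ Γ := by
      have h1 : ∀ p : n × m, ∀ᵐ ζ ∂σ, ∃ L, HasBdryValue (fun z => g z p.1 p.2) ζ L :=
        fun p => fatou (hg.1 p.1 p.2) (fun z hz => entry_le_one (hgc z hz) p.1 p.2)
      filter_upwards [ae_all_iff.2 h1] with ζ hζ
      choose L hL using hζ
      exact ⟨Matrix.of fun i j => L (i, j), tendsto_entries.2 fun i j => hL (i, j)⟩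
    obtain ⟨-, hne, -⟩ := maj_pole_rot hμ
    set A : ℂ → Matrix (m ⊕ n) (m ⊕ n) ℂ := fun z => fromBlocks 0 0 (g' z) 0 with hA
    have hAa : ∀ z ∈ disc, AnalyticPt A z := by
      intro z hz i j
      rcases i with i | i <;> rcases j with j | j
      · exact analyticAt_const
      · exact analyticAt_const
      · exact hg'a z hz i j
      · exact analyticAt_const
    have hAm : MajM A := by
      intro i j
      rcases i with i | i <;> rcases j with j | j
      · exact Maj.const _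
      · exact Maj.const _
      · exact hg'm i j
      · exact Maj.const _
    have hAv : ∀ (B : Matrix n m ℂ) (x : m → ℂ) (y : n → ℂ),
        (fromBlocks 0 0 B 0 : Matrix (m ⊕ n) (m ⊕ n) ℂ) *ᵥ (Sum.elim x y)
          = Sum.elim (0 : m → ℂ) (B *ᵥ x) := by
      intro B x y
      rw [fromBlocks_mulVec]
      simp
    have hAc : ∀ z ∈ disc, ∀ v, nsq (A z *ᵥ v) ≤ nsq v := by
      apply maj_bounded_form hAa hAm
      filter_upwards [hGbd, hne, ae_norm] with ζ hζ h1 hn
      obtain ⟨Γ, hΓ⟩ := hζ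
      have hΓc : ∀ v, nsq (Γ *ᵥ v) ≤ nsq v := by
        intro v
        apply le_of_tendsto (tendsto_nsq hΓ v)
        filter_upwards [eventually_r] with r hr
        exact hgc _ (dil_mem hr hn) v
      have hk0 : HasBdryValue kk ζ (kk ζ) := by
        have h2 : ContinuousAt (fun r : ℝ => (1 : ℂ) + μ * ((r : ℂ) * ζ)) 1 := by fun_prop
        have h3 : ContinuousAt (fun r : ℝ => (1 : ℂ) - μ * ((r : ℂ) * ζ)) 1 := by fun_prop
        have h4 : ContinuousAt (fun r : ℝ => kk (r * ζ)) 1 := h2.div h3 (by simpa using h1)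
        have h5 := h4.tendsto
        simp only [Complex.ofReal_one, one_mul] at h5
        exact h5.mono_left nhdsWithin_le_nhds
      have hu0 : Tendsto (fun r : ℝ => u (r * ζ)) (𝓝[<] 1) (𝓝 (Γ *ᵥ x + y)) := by
        have hcc : Continuous fun B : Matrix n m ℂ => B *ᵥ x + y := by fun_prop
        exact (hcc.tendsto Γ).comp hΓ
      set w0 : n → ℂ := kk ζ • (Γ *ᵥ x + y) with hw0
      have hw1 : Tendsto (fun r : ℝ => w (r * ζ)) (𝓝[<] 1) (𝓝 w0) := Tendsto.smul hk0 hu0
      have hd1 : Tendsto (fun r : ℝ => (1 : ℂ) - c * (star y ⬝ᵥ w (r * ζ))) (𝓝[<] 1)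
          (𝓝 ((1 : ℂ) - c * (star y ⬝ᵥ w0))) := by
        have hcc : Continuous fun w : n → ℂ => (1 : ℂ) - c * (star y ⬝ᵥ w) := by fun_prop
        exact (hcc.tendsto w0).comp hw1
      have hd2 : (1 : ℂ) - c * (star y ⬝ᵥ w0) ≠ 0 := by
        have : 1 / 2 ≤ ‖(1 : ℂ) - c * (star y ⬝ᵥ w0)‖ := by
          apply ge_of_tendsto hd1.norm
          filter_upwards [eventually_r] with r hr
          exact hdb _ (dil_mem hr hn)
        intro h
        rw [h, norm_zero] at this
        norm_num at this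
      have hE1 : Tendsto (fun r : ℝ => E (r * ζ)) (𝓝[<] 1) (𝓝 (Ef w0)) := by
        have h2 : Tendsto (fun r : ℝ => (c : ℂ) / (1 - c * (star y ⬝ᵥ w (r * ζ)))) (𝓝[<] 1)
            (𝓝 ((c : ℂ) / (1 - c * (star y ⬝ᵥ w0)))) := tendsto_const_nhds.div hd1 hd2
        have hcc : Continuous fun w : n → ℂ => vecMulVec w (star y) := by
          refine continuous_matrix fun i j => ?_
          simp only [vecMulVec_apply]
          fun_prop
        have h3 := (hcc.tendsto w0).comp hw1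
        exact tendsto_const_nhds.add (h2.smul h3)
      have hF1 : Tendsto (fun r : ℝ => F (r * ζ)) (𝓝[<] 1)
          (𝓝 (Γ + (c : ℂ) • vecMulVec w0 (star x))) := by
        have hcc : Continuous fun w : n → ℂ => vecMulVec w (star x) := by
          refine continuous_matrix fun i j => ?_
          simp only [vecMulVec_apply]
          fun_prop
        have h3 := (hcc.tendsto w0).comp hw1
        exact Tendsto.add hΓ (h3.const_smul (c : ℂ))
      have hg1 : Tendsto (fun r : ℝ => g' (r * ζ)) (𝓝[<] 1)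
          (𝓝 (Ef w0 * (Γ + (c : ℂ) • vecMulVec w0 (star x)))) := tendsto_mmul hE1 hF1
      have hA1 : HasBdryValue A ζ
          (fromBlocks 0 0 (Ef w0 * (Γ + (c : ℂ) • vecMulVec w0 (star x))) 0) := by
        refine tendsto_entries.2 fun i j => ?_
        rcases i with i | i <;> rcases j with j | j
        · exact tendsto_const_nhds
        · exact tendsto_const_nhds
        · exact tendsto_entries.1 hg1 i j
        · exact tendsto_const_nhds
      refine ⟨_, hA1, fun v => ?_⟩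
      have hv : v = Sum.elim (v ∘ Sum.inl) (v ∘ Sum.inr) := (Sum.elim_comp_inl_inr v).symm
      rw [hv, hAv, nsq_elim, nsq_elim, nsq_zero, zero_add]
      have e1 : Ef w0 * (1 - kz μ c ζ • vecMulVec (Γ *ᵥ x + y) (star y)) = 1 := by
        have h2 := hEe w0 hd2
        have h3 : kz μ c ζ • vecMulVec (Γ *ᵥ x + y) (star y)
            = (c : ℂ) • vecMulVec w0 (star y) := by
          simp only [hw0, hkk, kz, smul_vecMulVec, smul_smul]
        rw [h3]
        exact h2
      have e2 : (c : ℂ) • vecMulVec w0 (star x)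
          = kz μ c ζ • vecMulVec (Γ *ᵥ x + y) (star x) := by
        simp only [hw0, hkk, kz, smul_vecMulVec, smul_smul]
      rw [e2]
      have h6 := contact_bdry hΓc hx hy (kz_re_zero (c := c) hμ hn h1) e1 (v ∘ Sum.inl)
      linarith [nsq_nonneg (v ∘ Sum.inr)]
    intro z hz
    refine (one_sub_iff _).2 fun v => ?_
    have h1 := hAc z hz (Sum.elim v 0)
    simp only [hA] at h1
    rw [hAv, nsq_elim, nsq_elim, nsq_zero, nsq_zero, zero_add, add_zero] at h1
    exact h1
  · intro z hz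
    rw [SV11, SV12, SV21, SV22]
    obtain ⟨k1, k2⟩ := contact_alg hx hy (kz μ c z) (hEe1 z hz)
    simp only [hg']
    rw [hFe z, k1, k2]

/-- `κ_W` is a Schur function -/
lemma schur_of_kappa {W : ℂ → Matrix (m ⊕ n) (m ⊕ n) ℂ} (hW : JInner W) {g : ℂ → Matrix n m ℂ}
    (hg : IsKappa W g) : IsSchur g := by
  obtain ⟨h, G, hd, hG, hb1, hGb, hne, hWG⟩ := hW.boundedType.normalise
  have hWa : ∀ z ∈ disc, h z ≠ 0 → AnalyticPt W z := fun z hz h0 =>
    repr_analytic hd hG hWG hz h0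
  have hWC : ∀ z ∈ disc, h z ≠ 0 → JC (W z) := fun z hz h0 =>
    (jc_iff _).1 (hW.contractive z hz (hWa z hz h0))
  have hga : ∀ z ∈ disc, AnalyticPt g z := analyticPt_iff.1 hg.1
  refine ⟨hg.1, fun z hz => (one_sub_iff _).2 fun y => ?_⟩
  have hcont : ContinuousAt (fun w => nsq (g w *ᵥ y)) z :=
    tendsto_nsq (continuousAt_entries (hga z hz)) y
  refine le_of_ev hcont continuousAt_const ?_
  filter_upwards [ev_ne hd hne hz] with w hw
  rw [hg.2 w hw.1 (hWa w hw.1 hw.2)]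
  exact (hWC w hw.1 hw.2).kappa y

/-- **No contact.** If `(g(z) x + y)/(lam - z)` is bounded in the disc for a point `lam` of the
circle and unit vectors `x`, `y`, then `g` is not `κ_W` of a left regular `W`. -/
theorem no_contact {g : ℂ → Matrix n m ℂ} {lam : ℂ} {x : m → ℂ} {y : n → ℂ} {C : ℝ}
    (hlam : ‖lam‖ = 1) (hx : nsq x = 1) (hy : nsq y = 1)
    (_hg : ∀ i k, DifferentiableOn ℂ (fun z => g z i k) disc)
    (hC : ∀ z ∈ disc, nsq (g z *ᵥ x + y) ≤ C * ‖lam - z‖ ^ 2) :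
    ¬ ∃ W : ℂ → Matrix (m ⊕ n) (m ⊕ n) ℂ, LeftRegular W ∧ IsKappa W g := by
  intro h
  have hg : IsSchur g := by
    obtain ⟨W, hW, hWg⟩ := h
    exact schur_of_kappa hW.jInner hWg
  obtain ⟨c, hc, g', hg', hgg⟩ := contact hlam hx hy hg hC
  have hμ : ‖(starRingEnd ℂ) lam‖ = 1 := by rw [RCLike.norm_conj, hlam]
  have hx0 : x ≠ 0 := by
    rintro rfl
    rw [nsq_zero] at hx
    exact zero_ne_one hx
  exact not_const_SV hμ hc hx0 (((kappa_lr_iff g).1 h).2 _
    (aSingular_SV hμ hc.le (hx.trans hy.symm)) ⟨g', hg', hgg⟩)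

end Pool.Agent.H2RJ
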