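import Pool.Agent.H2RJ.PosReal
import Pool.Agent.H2RJ.Contact

open Filter Topology Complex MeasureTheory Set Metric Matrix
open scoped Real ENNReal NNReal ComplexOrder

namespace Pool.Agent.H2RJ

open Pool.Agent.RegJ Pool.Agent.RegK

set_option linter.unusedSectionVars false

variable {m n : Type*} [Fintype m] [DecidableEq m] [Fintype n] [DecidableEq n]

lemma one_add_ne {s : ℂ} (hs : 0 ≤ s.re) : (1 : ℂ) + s ≠ 0 := by
  intro h
  have := congrArg Complex.re h
  simp at this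
  linarith

lemma norm_one_le {s : ℂ} (hs : 0 ≤ s.re) : 1 ≤ ‖(1 : ℂ) + s‖ := by
  have h1 := (le_abs_self _).trans (Complex.abs_re_le_norm ((1 : ℂ) + s))
  simp at h1
  linarith

lemma norm_le_add {s : ℂ} (hs : 0 ≤ s.re) : ‖s‖ ≤ ‖(1 : ℂ) + s‖ := by
  have : ‖s‖ ^ 2 ≤ ‖(1 : ℂ) + s‖ ^ 2 := by
    rw [← Complex.normSq_eq_norm_sq, ← Complex.normSq_eq_norm_sq, Complex.normSq_apply,
      Complex.normSq_apply]
    simp
    nlinarith
  exact (sq_le_sq₀ (norm_nonneg _) (norm_nonneg _)).1 this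

/-- A holomorphic function with non-negative real part is in the Smirnov class. -/
theorem smirnov_re {s : ℂ → ℂ} (hd : DifferentiableOn ℂ s disc)
    (hs : ∀ z ∈ disc, 0 ≤ (s z).re) (α β : ℂ) : Smirnov (fun z => α + β * s z) := by
  have hd' : DifferentiableOn ℂ (fun z => 1 + s z) (ball 0 1) := hd.const_add 1
  obtain ⟨hM, g, hgi, hg0, hgb⟩ := maj_of_re (τ := fun z => 1 + s z) hd' (by
    intro z hz
    have := hs z hz
    simp
    exact this)
  have hM2 : Maj (fun z => α + β * s z) :=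
    ((Maj.const (α - β)).add ((Maj.const β).mul hM)).congr fun z _ => by ring
  obtain ⟨T, hT⟩ := hgb.choice
  refine smirnov_of_maj (hb := fun ζ => α + β * (T ζ - 1))
    (g := fun ζ => (Real.posLog ‖β‖ + g ζ) + (Real.posLog ‖α - β‖ + Real.log 2))
    ((hd.const_mul β).const_add α) hM2 ?_ ?_ ?_ ?_
  · refine ⟨fun z => (α + β * s z) * (1 + s z)⁻¹, fun z => (1 + s z)⁻¹, ‖α‖ + ‖β‖ + 1,
      ?_, ?_, fun z hz => ?_, ⟨0, by simp [disc], inv_ne_zero (one_add_ne (hs 0 (by simp [disc])))⟩,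
      fun z hz => by ring⟩
    · exact ((hd.const_mul β).const_add α).mul (hd'.inv fun z hz => one_add_ne (hs z hz))
    · exact hd'.inv fun z hz => one_add_ne (hs z hz)
    · have h1 := norm_one_le (hs z hz)
      have h2 := norm_le_add (hs z hz)
      have h0 : 0 < ‖(1 : ℂ) + s z‖ := by linarith
      constructor
      · rw [norm_mul, norm_inv, ← div_eq_mul_inv, div_le_iff₀ h0]
        refine (norm_add_le _ _).trans ?_
        rw [norm_mul]
        have e1 : ‖α‖ * 1 ≤ ‖α‖ * ‖(1 : ℂ) + s z‖ := mul_le_mul_of_nonneg_left h1 (norm_nonneg _)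
        have e2 : ‖β‖ * ‖s z‖ ≤ ‖β‖ * ‖(1 : ℂ) + s z‖ :=
          mul_le_mul_of_nonneg_left h2 (norm_nonneg _)
        nlinarith
      · rw [norm_inv]
        have := inv_le_one_of_one_le₀ h1
        have := norm_nonneg α
        have := norm_nonneg β
        linarith
  · filter_upwards [hT] with ζ hζ
    have h1 : Tendsto (fun r : ℝ => α + β * ((1 + s (r * ζ)) - 1)) (𝓝[<] 1)
        (𝓝 (α + β * (T ζ - 1))) := ((hζ.1.sub_const 1).const_mul β).const_add α
    refine h1.congr fun r => ?_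
    ring
  · exact ((integrable_const _).add hgi).add (integrable_const _)
  · filter_upwards [hT] with ζ hζ
    have e1 : α + β * (T ζ - 1) = (α - β) + β * T ζ := by ring
    have h5 := Real.posLog_norm_add_le (α - β) (β * T ζ)
    have h6 : Real.posLog ‖β * T ζ‖ ≤ Real.posLog ‖β‖ + Real.posLog ‖T ζ‖ := by
      rw [norm_mul]; exact Real.posLog_mul
    rw [e1]
    linarith [hζ.2]

/-- the function `1 - s v v* j` -/
noncomputable def SG (s : ℂ → ℂ) (x : m → ℂ) (y : n → ℂ) (z : ℂ) :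
    Matrix (m ⊕ n) (m ⊕ n) ℂ := 1 + (-s z) • NV x y

lemma jInner_SG {s : ℂ → ℂ} (hd : DifferentiableOn ℂ s disc)
    (hs : ∀ z ∈ disc, 0 ≤ (s z).re)
    (hsb : ∀ᵐ ζ ∂circleMeasure, ∃ L, HasBdryValue s ζ L ∧ L.re = 0) {x : m → ℂ} {y : n → ℂ}
    (h : nsq x = nsq y) : JInner (SG s x y) := by
  have hsa : ∀ z ∈ disc, AnalyticAt ℂ s z := fun z hz => hd.analyticAt (isOpen_ball.mem_nhds hz)
  have han : ∀ z ∈ disc, AnalyticPt (SG s x y) z := by
    intro z hz a b
    have h5 : AnalyticAt ℂ (fun z => (1 : Matrix (m ⊕ n) (m ⊕ n) ℂ) a b + (-s z) * NV x y a b) z :=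
      analyticAt_const.add ((hsa z hz).neg.mul analyticAt_const)
    exact h5
  have hd' : DifferentiableOn ℂ (fun z => (1 + s z)⁻¹) disc :=
    (hd.const_add 1).inv fun z hz => one_add_ne (hs z hz)
  constructor
  · refine ⟨fun z => (1 + s z)⁻¹, fun z => (1 + s z)⁻¹ • SG s x y z,
      1 + ∑ a, ∑ b, (‖(1 : Matrix (m ⊕ n) (m ⊕ n) ℂ) a b‖ + ‖NV x y a b‖), hd',
      ?_, ?_, ⟨0, by simp [disc], inv_ne_zero (one_add_ne (hs 0 (by simp [disc])))⟩, ?_⟩
    · rw [analyticPt_iff]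
      intro z hz
      exact AnalyticPt.smul (hd'.analyticAt (isOpen_ball.mem_nhds hz)) (han z hz)
    · intro z hz
      have h1 := norm_one_le (hs z hz)
      have h2 := norm_le_add (hs z hz)
      have h0 : 0 < ‖(1 : ℂ) + s z‖ := by linarith
      have hnn : ∀ a b, 0 ≤ ‖(1 : Matrix (m ⊕ n) (m ⊕ n) ℂ) a b‖ + ‖NV x y a b‖ :=
        fun a b => by positivity
      constructor
      · have : 0 ≤ ∑ a, ∑ b, (‖(1 : Matrix (m ⊕ n) (m ⊕ n) ℂ) a b‖ + ‖NV x y a b‖) :=
          Finset.sum_nonneg fun a _ => Finset.sum_nonneg fun b _ => hnn a b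
        rw [norm_inv]
        have := inv_le_one_of_one_le₀ h1
        linarith
      · intro a b
        change ‖(1 + s z)⁻¹ * ((1 : Matrix (m ⊕ n) (m ⊕ n) ℂ) a b + (-s z) * NV x y a b)‖ ≤ _
        have h3 : ‖(1 + s z)⁻¹ * ((1 : Matrix (m ⊕ n) (m ⊕ n) ℂ) a b + (-s z) * NV x y a b)‖
            ≤ ‖(1 : Matrix (m ⊕ n) (m ⊕ n) ℂ) a b‖ + ‖NV x y a b‖ := by
          rw [norm_mul, norm_inv, mul_comm, ← div_eq_mul_inv, div_le_iff₀ h0]
          refine (norm_add_le _ _).trans ?_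
          rw [norm_mul, norm_neg]
          have e1 : ‖(1 : Matrix (m ⊕ n) (m ⊕ n) ℂ) a b‖ * 1
              ≤ ‖(1 : Matrix (m ⊕ n) (m ⊕ n) ℂ) a b‖ * ‖(1 : ℂ) + s z‖ :=
            mul_le_mul_of_nonneg_left h1 (norm_nonneg _)
          have e2 : ‖s z‖ * ‖NV x y a b‖ ≤ ‖(1 : ℂ) + s z‖ * ‖NV x y a b‖ :=
            mul_le_mul_of_nonneg_right h2 (norm_nonneg _)
          nlinarith
        have h4 : ‖(1 : Matrix (m ⊕ n) (m ⊕ n) ℂ) a b‖ + ‖NV x y a b‖
            ≤ ∑ b, (‖(1 : Matrix (m ⊕ n) (m ⊕ n) ℂ) a b‖ + ‖NV x y a b‖) :=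
          Finset.single_le_sum (f := fun b => ‖(1 : Matrix (m ⊕ n) (m ⊕ n) ℂ) a b‖
            + ‖NV x y a b‖) (fun b _ => hnn a b) (Finset.mem_univ b)
        have h5 : ∑ b, (‖(1 : Matrix (m ⊕ n) (m ⊕ n) ℂ) a b‖ + ‖NV x y a b‖)
            ≤ ∑ a, ∑ b, (‖(1 : Matrix (m ⊕ n) (m ⊕ n) ℂ) a b‖ + ‖NV x y a b‖) :=
          Finset.single_le_sum (f := fun a => ∑ b, (‖(1 : Matrix (m ⊕ n) (m ⊕ n) ℂ) a b‖
            + ‖NV x y a b‖)) (fun a _ => Finset.sum_nonneg fun b _ => hnn a b)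
            (Finset.mem_univ a)
        linarith
    · intro z hz _
      rw [inv_inv, smul_smul, mul_inv_cancel₀ (one_add_ne (hs z hz)), one_smul]
  · refine ⟨0, by simp [disc], han 0 (by simp [disc]), ?_⟩
    have h := SV_mul h (s 0)
    have h2 := congrArg Matrix.det h
    rw [det_mul, det_one] at h2
    exact left_ne_zero_of_mul_eq_one h2
  · intro z hz _
    rw [SG, form_SV h]
    refine PosSemidef.smul (posSemidef_vecMulVec_self_star _) ?_
    have := hs z hz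
    rw [Complex.zero_le_real]
    linarith
  · filter_upwards [hsb] with ζ hζ
    obtain ⟨L, hL, hL0⟩ := hζ
    refine ⟨1 + (-L) • NV x y, ?_, ?_⟩
    · exact tendsto_const_nhds.add ((Tendsto.neg hL).smul_const _)
    · have h2 := form_SV h L
      rw [hL0] at h2
      simp only [mul_zero, Complex.ofReal_zero, zero_smul] at h2
      exact (sub_eq_zero.1 h2).symm

theorem aSingular_SG {s : ℂ → ℂ} (hd : DifferentiableOn ℂ s disc)
    (hs : ∀ z ∈ disc, 0 ≤ (s z).re)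
    (hsb : ∀ᵐ ζ ∂circleMeasure, ∃ L, HasBdryValue s ζ L ∧ L.re = 0) {x : m → ℂ} {y : n → ℂ}
    (h : nsq x = nsq y) : ASingular (SG s x y) := by
  refine ⟨jInner_SG hd hs hsb h, fun a b => ?_, fun a b => ?_⟩
  · have := smirnov_re hd hs ((1 : Matrix (m ⊕ n) (m ⊕ n) ℂ) a b) (-(NV x y a b))
    convert this using 2 with z
    simp only [SG, Matrix.add_apply, Matrix.smul_apply, smul_eq_mul]
    ring
  · have := smirnov_re hd hs ((1 : Matrix (m ⊕ n) (m ⊕ n) ℂ) a b) (NV x y a b)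
    convert this using 2 with z
    have hinv : (SG s x y z)⁻¹ = 1 + s z • NV x y := inv_eq_right_inv (SV_mul h (s z))
    rw [hinv]
    simp only [Matrix.add_apply, Matrix.smul_apply, smul_eq_mul]
    ring

theorem not_const_SG {s : ℂ → ℂ} (hsc : ¬ ∃ c, ∀ z ∈ disc, s z = c) {x : m → ℂ} {y : n → ℂ}
    (hx : x ≠ 0) : ¬ ∃ C, ∀ z ∈ disc, SG s x y z = C := by
  rintro ⟨C, hC⟩
  obtain ⟨i, hi⟩ : ∃ i, x i ≠ 0 := by
    by_contra hcon
    push Not at hcon
    exact hx (funext hcon)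
  have hsi : x i * star (x i) ≠ 0 := mul_ne_zero hi (star_ne_zero.2 hi)
  refine hsc ⟨(1 - C (Sum.inl i) (Sum.inl i)) / (x i * star (x i)), fun z hz => ?_⟩
  have h2 := congrFun (congrFun (hC z hz) (Sum.inl i)) (Sum.inl i)
  have hN : NV x y (Sum.inl i) (Sum.inl i) = x i * star (x i) := by
    simp [NV, vecMulVec_apply, bv]
  simp only [SG, Matrix.add_apply, Matrix.smul_apply, smul_eq_mul, hN, Matrix.one_apply_eq] at h2
  rw [eq_div_iff hsi, ← h2]
  ring

/-- the pointwise lemma -/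
lemma contact_pt {g : Matrix n m ℂ} {x : m → ℂ} {y : n → ℂ} (hx : nsq x = 1) (hy : nsq y = 1)
    {κ : ℂ} (h : ∀ a : n → ℂ, nsq (gᴴ *ᵥ a) + 2 * κ.re * ‖star (g *ᵥ x + y) ⬝ᵥ a‖ ^ 2 ≤ nsq a) :
    IsUnit (1 - κ • vecMulVec (g *ᵥ x + y) (star y)).det ∧
    ∀ v, nsq (((1 - κ • vecMulVec (g *ᵥ x + y) (star y))⁻¹ *
      (g + κ • vecMulVec (g *ᵥ x + y) (star x))) *ᵥ v) ≤ nsq v := by
  set u := g *ᵥ x + y with hu
  set F := g + κ • vecMulVec u (star x) with hF
  set e := (1 : Matrix n n ℂ) - κ • vecMulVec u (star y) with he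
  have h2 : ∀ b, Fᴴ *ᵥ b = gᴴ *ᵥ b + (star κ * (star u ⬝ᵥ b)) • x := by
    intro b
    rw [hF, conjTranspose_add, conjTranspose_smul, conjTranspose_vecMulVec, star_star,
      add_mulVec, smul_mulVec, vv_vec, smul_smul]
  have h3 : ∀ b, eᴴ *ᵥ b = b + -((star κ * (star u ⬝ᵥ b)) • y) := by
    intro b
    rw [he, conjTranspose_sub, conjTranspose_one, conjTranspose_smul, conjTranspose_vecMulVec,
      star_star, sub_mulVec, one_mulVec, smul_mulVec, vv_vec, smul_smul, sub_eq_add_neg]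
  have hFe : ∀ b, nsq (Fᴴ *ᵥ b) ≤ nsq (eᴴ *ᵥ b) := by
    intro b
    set s := star u ⬝ᵥ b with hs
    have e1 : nsq (Fᴴ *ᵥ b) = nsq (gᴴ *ᵥ b) + 2 * ((star κ * s) * (star (gᴴ *ᵥ b) ⬝ᵥ x)).re
        + ‖star κ * s‖ ^ 2 := by
      rw [h2, nsq_add, dotProduct_smul, smul_eq_mul, nsq_smul, hx, mul_one]
    have e2 : nsq (eᴴ *ᵥ b) = nsq b - 2 * ((star κ * s) * (star b ⬝ᵥ y)).re
        + ‖star κ * s‖ ^ 2 := by
      rw [h3, nsq_add, dotProduct_neg, dotProduct_smul, smul_eq_mul, nsq_neg, nsq_smul, hy,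
        mul_one, Complex.neg_re]
      ring
    have e3 : star (gᴴ *ᵥ b) ⬝ᵥ x = star b ⬝ᵥ (g *ᵥ x) := by
      rw [star_mulVec, conjTranspose_conjTranspose, ← dotProduct_mulVec]
    have e4 : (star κ * s) * (star (gᴴ *ᵥ b) ⬝ᵥ x) + (star κ * s) * (star b ⬝ᵥ y)
        = star κ * (s * star s) := by
      rw [e3, ← mul_add, ← dotProduct_add, ← hu, hs, star_dot_comm b u]
      ring
    have e5 : (star κ * (s * star s)).re = κ.re * ‖s‖ ^ 2 := by
      have : s * star s = ((‖s‖ ^ 2 : ℝ) : ℂ) := by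
        rw [Complex.star_def, Complex.mul_conj, Complex.normSq_eq_norm_sq]
      rw [this, mul_comm, Complex.re_ofReal_mul]
      simp
      ring
    have e6 := congrArg Complex.re e4
    rw [Complex.add_re, e5] at e6
    rw [e1, e2]
    have := h b
    rw [← hs] at this
    linarith
  have hinj : ∀ b, eᴴ *ᵥ b = 0 → b = 0 := by
    intro b hb
    have hFb : Fᴴ *ᵥ b = 0 := nsq_eq_zero (le_antisymm (by
      have := hFe b
      rwa [hb, nsq_zero] at this) (nsq_nonneg _))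
    rw [h2] at hFb
    rw [h3] at hb
    set s := star u ⬝ᵥ b with hs
    have k1 : gᴴ *ᵥ b = -((star κ * s) • x) := eq_neg_of_add_eq_zero_left hFb
    have k2 : b = (star κ * s) • y := by
      have := eq_neg_of_add_eq_zero_left hb
      rwa [neg_neg] at this
    have hs0 : s = 0 := by
      have k3 : s = star x ⬝ᵥ (gᴴ *ᵥ b) + star y ⬝ᵥ b := by
        rw [hs, hu, star_add, add_dotProduct]
        congr 1
        rw [star_dot_conj]
      have k4 : star y ⬝ᵥ b = star κ * s := by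
        conv_lhs => rw [k2]
        rw [dotProduct_smul, star_dot_self, hy, smul_eq_mul]
        simp
      rw [k1, k4, dotProduct_neg, dotProduct_smul, star_dot_self, hx, smul_eq_mul] at k3
      rw [k3]
      simp
    rw [k2, hs0]
    simp
  have hu' : IsUnit e.det := by
    have h4 : IsUnit (eᴴ).det := by
      rw [← Matrix.isUnit_iff_isUnit_det, ← mulVec_injective_iff_isUnit]
      intro a b hab
      have : eᴴ *ᵥ (a - b) = 0 := by rw [mulVec_sub]; exact sub_eq_zero.2 hab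
      exact sub_eq_zero.1 (hinj _ this)
    rw [det_conjTranspose] at h4
    have h5 : e.det ≠ 0 := star_ne_zero.1 h4.ne_zero
    exact isUnit_iff_ne_zero.2 h5
  refine ⟨hu', fun v => ?_⟩
  have key : ∀ a : n → ℂ, nsq ((e⁻¹ * F)ᴴ *ᵥ a) ≤ nsq a := by
    intro a
    have ha : a = eᴴ *ᵥ ((e⁻¹)ᴴ *ᵥ a) := by
      rw [mulVec_mulVec, ← conjTranspose_mul, nonsing_inv_mul _ hu', conjTranspose_one, one_mulVec]
    have h1 : (e⁻¹ * F)ᴴ *ᵥ a = Fᴴ *ᵥ ((e⁻¹)ᴴ *ᵥ a) := by
      rw [conjTranspose_mul, ← mulVec_mulVec]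
    rw [h1]
    conv_rhs => rw [ha]
    exact hFe _
  have := contr_star key v
  rwa [conjTranspose_conjTranspose] at this

/-- **Clark measures.** If `I - g g* ≥ 2 (Re s) (g x + y)(g x + y)*` in the disc, for unit vectors
`x`, `y` and a non-constant holomorphic function `s` with `Re s ≥ 0` in the disc and `Re s = 0`
almost everywhere on the circle, then `g` is not `κ_W` of a left regular `W`. -/
theorem clark {g : ℂ → Matrix n m ℂ} {s : ℂ → ℂ} {x : m → ℂ} {y : n → ℂ} (hx : nsq x = 1)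
    (hy : nsq y = 1) (hd : DifferentiableOn ℂ s disc) (hs : ∀ z ∈ disc, 0 ≤ (s z).re)
    (hsb : ∀ᵐ ζ ∂circleMeasure, ∃ L, HasBdryValue s ζ L ∧ L.re = 0)
    (hsc : ¬ ∃ c, ∀ z ∈ disc, s z = c)
    (h : ∀ z ∈ disc, ∀ a : n → ℂ, nsq ((g z)ᴴ *ᵥ a)
      + 2 * (s z).re * ‖star (g z *ᵥ x + y) ⬝ᵥ a‖ ^ 2 ≤ nsq a) :
    ¬ ∃ W : ℂ → Matrix (m ⊕ n) (m ⊕ n) ℂ, LeftRegular W ∧ IsKappa W g := by
  intro hW
  have hgd : ∀ i k, DifferentiableOn ℂ (fun z => g z i k) disc := by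
    obtain ⟨W, -, hWg⟩ := hW
    exact hWg.1
  have hga : ∀ z ∈ disc, AnalyticPt g z := analyticPt_iff.1 hgd
  have hsa : ∀ z ∈ disc, AnalyticAt ℂ s z := fun z hz => hd.analyticAt (isOpen_ball.mem_nhds hz)
  have hx0 : x ≠ 0 := by
    rintro rfl
    rw [nsq_zero] at hx
    exact zero_ne_one hx
  set u : ℂ → n → ℂ := fun z => g z *ᵥ x + y with hu
  have hua : ∀ z ∈ disc, ∀ i, AnalyticAt ℂ (fun z => u z i) z := by
    intro z hz i
    simp only [hu, Pi.add_apply, mulVec, dotProduct]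
    refine AnalyticAt.add (Finset.analyticAt_fun_sum _ fun j _ => ?_) analyticAt_const
    exact (hga z hz i j).mul analyticAt_const
  set e : ℂ → Matrix n n ℂ := fun z => 1 - s z • vecMulVec (u z) (star y) with he
  set F : ℂ → Matrix n m ℂ := fun z => g z + s z • vecMulVec (u z) (star x) with hF
  have hea : ∀ z ∈ disc, AnalyticPt e z := by
    intro z hz i j
    have h5 : AnalyticAt ℂ (fun z => (1 : Matrix n n ℂ) i j - s z * (u z i * star (y j))) z :=
      analyticAt_const.sub ((hsa z hz).mul ((hua z hz i).mul analyticAt_const))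
    exact h5
  have hFa : ∀ z ∈ disc, AnalyticPt F z := by
    intro z hz i j
    have h5 : AnalyticAt ℂ (fun z => g z i j + s z * (u z i * star (x j))) z :=
      (hga z hz i j).add ((hsa z hz).mul ((hua z hz i).mul analyticAt_const))
    exact h5
  have hpt := fun z (hz : z ∈ disc) => contact_pt hx hy (h z hz)
  have hg' : IsSchur (fun z => (e z)⁻¹ * F z) :=
    ⟨analyticPt_iff.2 fun z hz => ((hea z hz).inv (hpt z hz).1.ne_zero).mul (hFa z hz),
      fun z hz => (one_sub_iff _).2 (hpt z hz).2⟩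
  refine not_const_SG hsc hx0 (((kappa_lr_iff g).1 hW).2 _
    (aSingular_SG hd hs hsb (hx.trans hy.symm)) ⟨_, hg', fun z hz => ?_⟩)
  obtain ⟨k1, k2⟩ := contact_alg hx hy (s z) (nonsing_inv_mul _ (hpt z hz).1)
  have b11 : (SG s x y z).toBlocks₁₁ = 1 - s z • vecMulVec x (star x) := by
    ext i j
    simp [SG, toBlocks₁₁, NV, bv, vecMulVec_apply, Matrix.one_apply, sub_eq_add_neg]
  have b12 : (SG s x y z).toBlocks₁₂ = s z • vecMulVec x (star y) := by
    ext i j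
    simp [SG, toBlocks₁₂, NV, bv, vecMulVec_apply]
  have b21 : (SG s x y z).toBlocks₂₁ = -(s z • vecMulVec y (star x)) := by
    ext i j
    simp [SG, toBlocks₂₁, NV, bv, vecMulVec_apply]
  have b22 : (SG s x y z).toBlocks₂₂ = 1 + s z • vecMulVec y (star y) := by
    ext i j
    simp [SG, toBlocks₂₂, NV, bv, vecMulVec_apply, Matrix.one_apply]
  rw [b11, b12, b21, b22]
  simp only [he, hF, hu]
  rw [k1, k2]

end Pool.Agent.H2RJ
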