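import Pool.Agent.RegK.Kappa

open Filter Topology Complex MeasureTheory Set Metric Matrix
open scoped Real ENNReal NNReal ComplexOrder

namespace Pool.Agent.H2RJ

open Pool.Agent.RegJ Pool.Agent.RegK

set_option linter.unusedSectionVars false

variable {m n : Type*} [Fintype m] [DecidableEq m] [Fintype n] [DecidableEq n]

/-- the blocks of the Potapov–Ginzburg transform of `W S⁻¹` -/
lemma PG_mul_inv {W S V : Matrix (m ⊕ n) (m ⊕ n) ℂ} {g g' : Matrix n m ℂ} (hSV : S * V = 1)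
    (hW : IsUnit W.toBlocks₂₂.det) (hg : g = W.toBlocks₂₂⁻¹ * W.toBlocks₂₁)
    (h : (g' * S.toBlocks₁₂ + S.toBlocks₂₂) * g = g' * S.toBlocks₁₁ + S.toBlocks₂₁) :
    PG (W * V) = fromBlocks ((PG W).toBlocks₁₁ * (V.toBlocks₁₁ - V.toBlocks₁₂ * g'))
      ((PG W).toBlocks₁₂ + (PG W).toBlocks₁₁ *
        (V.toBlocks₁₂ * ((g' * S.toBlocks₁₂ + S.toBlocks₂₂) * (PG W).toBlocks₂₂)))
      (-g') ((g' * S.toBlocks₁₂ + S.toBlocks₂₂) * (PG W).toBlocks₂₂) ∧
    IsUnit (W * V).toBlocks₂₂.det := by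
  have e11 := congrArg toBlocks₁₁ hSV
  have e12 := congrArg toBlocks₁₂ hSV
  have e21 := congrArg toBlocks₂₁ hSV
  have e22 := congrArg toBlocks₂₂ hSV
  rw [mul_blocks11, ← fromBlocks_one, toBlocks_fromBlocks₁₁] at e11
  rw [mul_blocks12, ← fromBlocks_one, toBlocks_fromBlocks₁₂] at e12
  rw [mul_blocks21, ← fromBlocks_one, toBlocks_fromBlocks₂₁] at e21
  rw [mul_blocks22, ← fromBlocks_one, toBlocks_fromBlocks₂₂] at e22
  set c := g' * S.toBlocks₁₂ + S.toBlocks₂₂ with hc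
  set d := g * V.toBlocks₁₂ + V.toBlocks₂₂ with hd
  have hcd : c * d = 1 := by
    have : c * d = g' * (S.toBlocks₁₁ * V.toBlocks₁₂ + S.toBlocks₁₂ * V.toBlocks₂₂)
        + (S.toBlocks₂₁ * V.toBlocks₁₂ + S.toBlocks₂₂ * V.toBlocks₂₂) := by
      rw [hd, Matrix.mul_add, ← Matrix.mul_assoc, h, hc]
      simp only [Matrix.mul_add, Matrix.add_mul, Matrix.mul_assoc]
      abel
    rw [this, e12, e22, Matrix.mul_zero, zero_add]
  have hdc : d * c = 1 := mul_eq_one_comm.1 hcd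
  have hcg : c * (g * V.toBlocks₁₁ + V.toBlocks₂₁) = g' := by
    have : c * (g * V.toBlocks₁₁ + V.toBlocks₂₁)
        = g' * (S.toBlocks₁₁ * V.toBlocks₁₁ + S.toBlocks₁₂ * V.toBlocks₂₁)
        + (S.toBlocks₂₁ * V.toBlocks₁₁ + S.toBlocks₂₂ * V.toBlocks₂₁) := by
      rw [Matrix.mul_add, ← Matrix.mul_assoc, h, hc]
      simp only [Matrix.mul_add, Matrix.add_mul, Matrix.mul_assoc]
      abel
    rw [this, e11, e21, Matrix.mul_one, add_zero]
  have hgd : g * V.toBlocks₁₁ + V.toBlocks₂₁ = d * g' := by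
    rw [← hcg, ← Matrix.mul_assoc, hdc, Matrix.one_mul]
  have hW21 : W.toBlocks₂₁ = W.toBlocks₂₂ * g := by
    rw [hg, ← Matrix.mul_assoc, mul_nonsing_inv _ hW, Matrix.one_mul]
  have k22 : (W * V).toBlocks₂₂ = W.toBlocks₂₂ * d := by
    rw [mul_blocks22, hW21, hd, Matrix.mul_add, Matrix.mul_assoc]
  have k21 : (W * V).toBlocks₂₁ = W.toBlocks₂₂ * (d * g') := by
    rw [mul_blocks21, hW21, ← hgd, Matrix.mul_add, Matrix.mul_assoc]
  have kinv : (W * V).toBlocks₂₂⁻¹ = c * W.toBlocks₂₂⁻¹ := by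
    rw [k22, Matrix.mul_inv_rev]
    rw [inv_eq_left_inv hcd]
  have kg : (W * V).toBlocks₂₂⁻¹ * (W * V).toBlocks₂₁ = g' := by
    rw [kinv, k21, Matrix.mul_assoc, ← Matrix.mul_assoc _ _ (d * g'), nonsing_inv_mul _ hW,
      Matrix.one_mul, ← Matrix.mul_assoc, hcd, Matrix.one_mul]
  refine ⟨?_, ?_⟩
  · unfold PG
    simp only [toBlocks_fromBlocks₁₁, toBlocks_fromBlocks₁₂, toBlocks_fromBlocks₂₂]
    rw [Matrix.mul_assoc (W * V).toBlocks₁₂, kg, kinv, Matrix.mul_assoc W.toBlocks₁₂, ← hg,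
      mul_blocks11, mul_blocks12]
    congr 1
    · have : W.toBlocks₁₁ * V.toBlocks₁₁ + W.toBlocks₁₂ * V.toBlocks₂₁
          - (W.toBlocks₁₁ * V.toBlocks₁₂ + W.toBlocks₁₂ * V.toBlocks₂₂) * g'
          = (W.toBlocks₁₁ - W.toBlocks₁₂ * g) * (V.toBlocks₁₁ - V.toBlocks₁₂ * g')
          + W.toBlocks₁₂ * ((g * V.toBlocks₁₁ + V.toBlocks₂₁)
            - (g * V.toBlocks₁₂ + V.toBlocks₂₂) * g') := by
        simp only [Matrix.mul_add, Matrix.add_mul, Matrix.mul_sub, Matrix.sub_mul,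
          Matrix.mul_assoc]
        abel
      rw [this, hgd, ← hd, sub_self, Matrix.mul_zero, add_zero]
    · have : (W.toBlocks₁₁ * V.toBlocks₁₂ + W.toBlocks₁₂ * V.toBlocks₂₂)
            * (c * W.toBlocks₂₂⁻¹)
          = W.toBlocks₁₂ * (((g * V.toBlocks₁₂ + V.toBlocks₂₂) * c) * W.toBlocks₂₂⁻¹)
          + (W.toBlocks₁₁ - W.toBlocks₁₂ * g) * (V.toBlocks₁₂ * (c * W.toBlocks₂₂⁻¹)) := by
        simp only [Matrix.mul_add, Matrix.add_mul, Matrix.sub_mul, Matrix.mul_assoc]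
        abel
      rw [this, ← hd, hdc, Matrix.one_mul]
  · rw [k22, det_mul]
    exact hW.mul (isUnit_det_of_left_inverse hcd)

/-- The Potapov–Ginzburg transform is an involution. -/
lemma PG_PG {A : Matrix (m ⊕ n) (m ⊕ n) ℂ} (hA : IsUnit A.toBlocks₂₂.det) : PG (PG A) = A := by
  conv_rhs => rw [← fromBlocks_toBlocks A]
  unfold PG
  simp only [toBlocks_fromBlocks₁₁, toBlocks_fromBlocks₁₂, toBlocks_fromBlocks₂₁,
    toBlocks_fromBlocks₂₂]
  have e1 : A.toBlocks₁₂ * A.toBlocks₂₂⁻¹ * A.toBlocks₂₂ = A.toBlocks₁₂ := by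
    rw [Matrix.mul_assoc, nonsing_inv_mul _ hA, Matrix.mul_one]
  have e2 : A.toBlocks₂₂ * (A.toBlocks₂₂⁻¹ * A.toBlocks₂₁) = A.toBlocks₂₁ := by
    rw [← Matrix.mul_assoc, mul_nonsing_inv _ hA, Matrix.one_mul]
  rw [nonsing_inv_nonsing_inv _ hA, e1, Matrix.mul_neg, Matrix.mul_neg, e2, neg_neg,
    sub_neg_eq_add, Matrix.mul_assoc A.toBlocks₁₂, sub_add_cancel]

lemma PG_vec {A : Matrix (m ⊕ n) (m ⊕ n) ℂ} (hA : IsUnit A.toBlocks₂₂.det) (x : m → ℂ)
    (y : n → ℂ) : PG A *ᵥ (Sum.elim x (A.toBlocks₂₁ *ᵥ x + A.toBlocks₂₂ *ᵥ y))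
      = Sum.elim (A.toBlocks₁₁ *ᵥ x + A.toBlocks₁₂ *ᵥ y) y := by
  have h1 := congrArg (fun M => M *ᵥ (Sum.elim x y)) (PG_mul hA)
  simp only [← mulVec_mulVec, fromBlocks_mulVec] at h1
  simpa using h1

lemma JC_of_PG {A : Matrix (m ⊕ n) (m ⊕ n) ℂ} (hA : IsUnit A.toBlocks₂₂.det)
    (h : ∀ v, nsq (PG A *ᵥ v) ≤ nsq v) : JC A := by
  intro x y
  have h1 := h (Sum.elim x (A.toBlocks₂₁ *ᵥ x + A.toBlocks₂₂ *ᵥ y))
  rw [PG_vec hA, nsq_elim, nsq_elim] at h1
  exact h1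

lemma PG_contr {A : Matrix (m ⊕ n) (m ⊕ n) ℂ} (hA : JC A) (v : m ⊕ n → ℂ) :
    nsq (PG A *ᵥ v) ≤ nsq v := by
  have hu := hA.isUnit22
  set x : m → ℂ := v ∘ Sum.inl with hx
  set w : n → ℂ := v ∘ Sum.inr with hw
  set y : n → ℂ := A.toBlocks₂₂⁻¹ *ᵥ (w - A.toBlocks₂₁ *ᵥ x) with hy
  have hv : v = Sum.elim x (A.toBlocks₂₁ *ᵥ x + A.toBlocks₂₂ *ᵥ y) := by
    rw [hy, mulVec_mulVec, mul_nonsing_inv _ hu, one_mulVec, add_sub_cancel, hx, hw]
    exact (Sum.elim_comp_inl_inr v).symm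
  rw [hv, PG_vec hu, nsq_elim, nsq_elim]
  exact hA x y


/-- facts on an A-singular function and its inverse -/
lemma asing_mul {S : ℂ → Matrix (m ⊕ n) (m ⊕ n) ℂ} (hS : ASingular S) :
    ∀ z ∈ disc, S z * (S z)⁻¹ = 1 := by
  have hSa : ∀ z ∈ disc, AnalyticPt S z := analyticPt_iff.1 fun i k => (hS.smirnov i k).1
  have hVa : ∀ z ∈ disc, AnalyticPt (fun z => (S z)⁻¹) z :=
    analyticPt_iff.1 fun i k => (hS.smirnov_inv i k).1
  have hSdet : DifferentiableOn ℂ (fun z => (S z).det) disc := fun z hz =>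
    (hSa z hz).det.differentiableAt.differentiableWithinAt
  have hSdne : ∃ z ∈ disc, (S z).det ≠ 0 := by
    obtain ⟨z, hz, -, h0⟩ := hS.jInner.det_ne_zero
    exact ⟨z, hz, h0⟩
  intro z hz
  apply eq_of_ev (φ := fun z => S z * (S z)⁻¹) (ψ := fun _ => 1)
    (continuousAt_entries ((hSa z hz).mul (hVa z hz))) continuousAt_const
  filter_upwards [ev_ne hSdet hSdne hz] with y hy
  exact mul_nonsing_inv _ (isUnit_iff_ne_zero.2 hy.2)

/-- If `g = κ_W` is a linear fractional image of a Schur function under the A-singular function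
`S`, then `S` is a right divisor of `W`. -/
theorem div_of {W S : ℂ → Matrix (m ⊕ n) (m ⊕ n) ℂ} (hW : JInner W) (hS : ASingular S)
    {g g' : ℂ → Matrix n m ℂ} (hg : IsKappa W g) (hg' : IsSchur g')
    (hgg : ∀ z ∈ disc, (g' z * (S z).toBlocks₁₂ + (S z).toBlocks₂₂) * g z
      = g' z * (S z).toBlocks₁₁ + (S z).toBlocks₂₁) :
    JInner (fun z => W z * (S z)⁻¹) := by
  obtain ⟨h, G, hd, hG, hb1, hGb, hne, hWG⟩ := hW.boundedType.normalise
  obtain ⟨η, hη, -⟩ := log_bdry hd hb1 hne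
  set V : ℂ → Matrix (m ⊕ n) (m ⊕ n) ℂ := fun z => (S z)⁻¹ with hV
  have hSa : ∀ z ∈ disc, AnalyticPt S z := analyticPt_iff.1 fun i k => (hS.smirnov i k).1
  have hVa : ∀ z ∈ disc, AnalyticPt V z := analyticPt_iff.1 fun i k => (hS.smirnov_inv i k).1
  have hSm : MajM S := fun i k => (hS.smirnov i k).maj
  have hVm : MajM V := fun i k => (hS.smirnov_inv i k).maj
  have hSV : ∀ z ∈ disc, S z * V z = 1 := asing_mul hS
  have hWa : ∀ z ∈ disc, h z ≠ 0 → AnalyticPt W z := fun z hz h0 =>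
    repr_analytic hd hG hWG hz h0
  have hWC : ∀ z ∈ disc, h z ≠ 0 → JC (W z) := fun z hz h0 =>
    (jc_iff _).1 (hW.contractive z hz (hWa z hz h0))
  set D : ℂ → Matrix (m ⊕ n) (m ⊕ n) ℂ := fun z => W z * V z with hD
  have hDa : ∀ z ∈ disc, h z ≠ 0 → AnalyticPt D z := fun z hz h0 =>
    (hWa z hz h0).mul (hVa z hz)
  have hg'a : ∀ z ∈ disc, AnalyticPt g' z := analyticPt_iff.1 hg'.1
  have hg'm : MajM g' := MajM.of_bound (C := 1) fun z hz i k =>
    entry_le_one ((one_sub_iff _).1 (hg'.2 z hz)) i k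
  -- the Potapov–Ginzburg transform of `W`
  have hPGa : ∀ z ∈ disc, h z ≠ 0 → AnalyticPt (fun z => PG (W z)) z := by
    intro z hz h0
    have hu := (hWC z hz h0).isUnit22.ne_zero
    have h1 : AnalyticPt (fun w => ((W w).toBlocks₂₂.det)⁻¹ • PGnum (W w)) z :=
      AnalyticPt.smul ((hWa z hz h0).b22.det.inv hu) (PGnum_analytic (hWa z hz h0))
    refine h1.congr ?_
    filter_upwards [(hWa z hz h0).b22.det.continuousAt.eventually_ne hu] with w hw
    exact (PG_eq hw).symm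
  obtain ⟨Q, hQa, hQe, hQb⟩ := removableM (k := fun z => PG (W z)) (C := 1) hd hne hPGa
    (fun z hz h0 i j => entry_le_one (PG_contr (hWC z hz h0)) i j)
  have hQm : MajM Q := MajM.of_bound hQb
  set c : ℂ → Matrix n n ℂ := fun z => g' z * (S z).toBlocks₁₂ + (S z).toBlocks₂₂ with hc
  have hca : ∀ z ∈ disc, AnalyticPt c z := fun z hz =>
    ((hg'a z hz).mul (hSa z hz).b12).add (hSa z hz).b22
  have hcm : MajM c := (hg'm.mul fun i k => hSm _ _).add fun i k => hSm _ _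
  have hQa11 : ∀ z ∈ disc, AnalyticPt (fun z => (Q z).toBlocks₁₁) z := fun z hz => (hQa z hz).b11
  set Θ : ℂ → Matrix (m ⊕ n) (m ⊕ n) ℂ := fun z =>
    fromBlocks ((Q z).toBlocks₁₁ * ((V z).toBlocks₁₁ + -((V z).toBlocks₁₂ * g' z)))
      ((Q z).toBlocks₁₂ + (Q z).toBlocks₁₁ * ((V z).toBlocks₁₂ * (c z * (Q z).toBlocks₂₂)))
      (-g' z) (c z * (Q z).toBlocks₂₂) with hΘ
  have hΘa : ∀ z ∈ disc, AnalyticPt Θ z := by
    intro z hz i k
    rcases i with i | i <;> rcases k with k | k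
    · exact ((hQa z hz).b11.mul ((hVa z hz).b11.add ((hVa z hz).b12.mul (hg'a z hz)).neg)) i k
    · exact ((hQa z hz).b12.add ((hQa z hz).b11.mul ((hVa z hz).b12.mul
        ((hca z hz).mul (hQa z hz).b22)))) i k
    · exact (hg'a z hz).neg i k
    · exact ((hca z hz).mul (hQa z hz).b22) i k
  have q11 : MajM (fun z => (Q z).toBlocks₁₁) := fun i k => hQm _ _
  have q12 : MajM (fun z => (Q z).toBlocks₁₂) := fun i k => hQm _ _
  have q22 : MajM (fun z => (Q z).toBlocks₂₂) := fun i k => hQm _ _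
  have v11 : MajM (fun z => (V z).toBlocks₁₁) := fun i k => hVm _ _
  have v12 : MajM (fun z => (V z).toBlocks₁₂) := fun i k => hVm _ _
  have hΘm : MajM Θ := by
    intro i k
    rcases i with i | i <;> rcases k with k | k
    · exact (q11.mul (v11.add (v12.mul hg'm).neg)) i k
    · exact (q12.add (q11.mul (v12.mul (hcm.mul q22)))) i k
    · exact hg'm.neg i k
    · exact (hcm.mul q22) i k
  have hΘe : ∀ z ∈ disc, h z ≠ 0 → PG (D z) = Θ z ∧ IsUnit (D z).toBlocks₂₂.det := by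
    intro z hz h0
    obtain ⟨e1, e2⟩ := PG_mul_inv (hSV z hz) (hWC z hz h0).isUnit22 (hg.2 z hz (hWa z hz h0))
      (hgg z hz)
    refine ⟨?_, e2⟩
    simp only [hD, hΘ, hc]
    rw [e1, hQe z hz h0, sub_eq_add_neg]
  -- boundary values
  have hbdry : ∀ᵐ ζ ∂σ, ∃ L : Matrix (m ⊕ n) (m ⊕ n) ℂ, JU L ∧ HasBdryValue D ζ L ∧
      HasBdryValue Θ ζ (PG L) := by
    filter_upwards [hW.boundary, hη, hS.jInner.boundary, ae_norm] with ζ h1 h2 h4 hn
    obtain ⟨L0, hL0, hLU0⟩ := h1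
    obtain ⟨hH, hH0⟩ := h2
    obtain ⟨S0, hS0, hSU⟩ := h4
    have hSU' : JU S0 := hSU
    have hLU' : JU L0 := hLU0
    have hV0 : HasBdryValue V ζ S0⁻¹ := tendsto_minv hS0 hSU'.isUnit.ne_zero
    have hDU : JU (L0 * S0⁻¹) := hLU'.mul hSU'.inv
    have hD0 : HasBdryValue D ζ (L0 * S0⁻¹) := tendsto_mmul hL0 hV0
    refine ⟨L0 * S0⁻¹, hDU, hD0, ?_⟩
    refine (tendsto_PG hD0 hDU.jc.isUnit22.ne_zero).congr' ?_
    filter_upwards [eventually_r, hH.eventually_ne hH0] with r hr h0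
    exact (hΘe _ (dil_mem hr hn) h0).1
  have hΘc : ∀ z ∈ disc, ∀ v, nsq (Θ z *ᵥ v) ≤ nsq v := by
    apply maj_bounded_form hΘa hΘm
    filter_upwards [hbdry] with ζ hζ
    obtain ⟨L, hL, -, hΘ0⟩ := hζ
    exact ⟨PG L, hΘ0, PG_contr hL.jc⟩
  have hDC : ∀ z ∈ disc, h z ≠ 0 → JC (D z) := by
    intro z hz h0
    refine JC_of_PG (hΘe z hz h0).2 ?_
    rw [(hΘe z hz h0).1]
    exact hΘc z hz
  have hΘb : ∀ z ∈ disc, ∀ i k, ‖Θ z i k‖ ≤ 1 := fun z hz => entry_le_one (hΘc z hz)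
  refine ⟨?_, ?_, ?_, ?_⟩
  · obtain ⟨C, hC⟩ := PGnum_bound (m := m) (n := n)
    obtain ⟨C', hC'⟩ := bound_of_continuous (F := fun S : Matrix n n ℂ => S.det)
      continuous_id.matrix_det
    refine ⟨fun z => h z * (Θ z).toBlocks₂₂.det, fun z => h z • PGnum (Θ z), max C' C,
      hd.mul fun z hz => ((hΘa z hz).b22.det).differentiableAt.differentiableWithinAt, ?_, ?_, ?_,
      ?_⟩
    · rw [analyticPt_iff]
      intro z hz
      exact AnalyticPt.smul (hd.analyticAt (isOpen_ball.mem_nhds hz)) (PGnum_analytic (hΘa z hz))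
    · intro z hz
      have h1 := hb1 z hz
      constructor
      · rw [norm_mul]
        have h2 := (hC' (Θ z).toBlocks₂₂ fun i k => hΘb z hz (Sum.inr i) (Sum.inr k)).trans (le_max_left C' C)
        calc ‖h z‖ * ‖(Θ z).toBlocks₂₂.det‖ ≤ 1 * max C' C :=
              mul_le_mul h1 h2 (norm_nonneg _) zero_le_one
          _ = _ := one_mul _
      · intro i k
        change ‖(h z • PGnum (Θ z)) i k‖ ≤ _
        rw [Matrix.smul_apply, smul_eq_mul, norm_mul]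
        have h2 := (hC _ (hΘb z hz) i k).trans (le_max_right C' C)
        calc ‖h z‖ * ‖PGnum (Θ z) i k‖ ≤ 1 * max C' C :=
              mul_le_mul h1 h2 (norm_nonneg _) zero_le_one
          _ = _ := one_mul _
    · obtain ⟨z, hz, h0⟩ := hne
      refine ⟨z, hz, mul_ne_zero h0 ?_⟩
      obtain ⟨e1, e2⟩ := hΘe z hz h0
      rw [← e1]
      unfold PG
      rw [toBlocks_fromBlocks₂₂, det_nonsing_inv]
      exact e2.ringInverse.ne_zero
    · intro z hz h0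
      have h1 : h z ≠ 0 := left_ne_zero_of_mul h0
      have h2 : (Θ z).toBlocks₂₂.det ≠ 0 := right_ne_zero_of_mul h0
      obtain ⟨e1, e2⟩ := hΘe z hz h1
      change D z = _
      rw [← PG_PG e2, e1, PG_eq h2, smul_smul, mul_inv, mul_assoc, mul_comm _ (h z),
        ← mul_assoc, inv_mul_cancel₀ h1, one_mul]
  · obtain ⟨z, hz, ha, hdet⟩ := hW.det_ne_zero
    refine ⟨z, hz, ha.mul (hVa z hz), ?_⟩
    change (W z * V z).det ≠ 0
    rw [det_mul]
    refine mul_ne_zero hdet ?_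
    intro h0
    have := congrArg Matrix.det (hSV z hz)
    rw [det_mul, h0, mul_zero, det_one] at this
    exact zero_ne_one this
  · intro z hz hA
    rw [jc_iff, jc_iff_vec]
    intro v
    have hcont : ContinuousAt (fun y => nsq ((D y *ᵥ v) ∘ Sum.inl)
        - nsq ((D y *ᵥ v) ∘ Sum.inr)) z := by
      have h1 : Continuous fun M : Matrix (m ⊕ n) (m ⊕ n) ℂ => nsq ((M *ᵥ v) ∘ Sum.inl)
          - nsq ((M *ᵥ v) ∘ Sum.inr) := by
        unfold nsq
        simp only [Function.comp]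
        fun_prop
      exact ContinuousAt.comp (f := D) h1.continuousAt (continuousAt_entries hA)
    refine le_of_ev hcont continuousAt_const ?_
    filter_upwards [ev_ne hd hne hz] with y hy
    exact (jc_iff_vec _).1 (hDC y hy.1 hy.2) v
  · filter_upwards [hbdry] with ζ hζ
    obtain ⟨L, hL, hD0, -⟩ := hζ
    exact ⟨L, hD0, hL⟩

/-- Conversely, for a right divisor `S` of `W` the function `κ_W` is a linear fractional image of
the Schur function `κ_{W S⁻¹}` under `S`. -/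
theorem of_div {W S : ℂ → Matrix (m ⊕ n) (m ⊕ n) ℂ} (hW : JInner W) (hS : ASingular S)
    {g : ℂ → Matrix n m ℂ} (hg : IsKappa W g) (hD : JInner (fun z => W z * (S z)⁻¹)) :
    ∃ g' : ℂ → Matrix n m ℂ, IsSchur g' ∧
      ∀ z ∈ disc, (g' z * (S z).toBlocks₁₂ + (S z).toBlocks₂₂) * g z
        = g' z * (S z).toBlocks₁₁ + (S z).toBlocks₂₁ := by
  obtain ⟨h, G, hd, hG, hb1, hGb, hne, hWG⟩ := hW.boundedType.normalise
  have hSa : ∀ z ∈ disc, AnalyticPt S z := analyticPt_iff.1 fun i k => (hS.smirnov i k).1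
  have hVa : ∀ z ∈ disc, AnalyticPt (fun z => (S z)⁻¹) z :=
    analyticPt_iff.1 fun i k => (hS.smirnov_inv i k).1
  have hSV := asing_mul hS
  have hVS : ∀ z ∈ disc, (S z)⁻¹ * S z = 1 := fun z hz => mul_eq_one_comm.1 (hSV z hz)
  have hWa : ∀ z ∈ disc, h z ≠ 0 → AnalyticPt W z := fun z hz h0 =>
    repr_analytic hd hG hWG hz h0
  have hWC : ∀ z ∈ disc, h z ≠ 0 → JC (W z) := fun z hz h0 =>
    (jc_iff _).1 (hW.contractive z hz (hWa z hz h0))
  set B : ℂ → Matrix (m ⊕ n) (m ⊕ n) ℂ := fun z => W z * (S z)⁻¹ with hB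
  have hBa : ∀ z ∈ disc, h z ≠ 0 → AnalyticPt B z := fun z hz h0 =>
    (hWa z hz h0).mul (hVa z hz)
  have hBC : ∀ z ∈ disc, h z ≠ 0 → JC (B z) := fun z hz h0 =>
    (jc_iff _).1 (hD.contractive z hz (hBa z hz h0))
  have hBS : ∀ z ∈ disc, B z * S z = W z := by
    intro z hz
    simp only [hB]
    rw [Matrix.mul_assoc, hVS z hz, Matrix.mul_one]
  obtain ⟨K, hKa, hKe, hKb⟩ := removableM
    (k := fun z => ((B z).toBlocks₂₂)⁻¹ * (B z).toBlocks₂₁) (C := 1) hd hne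
    (fun z hz h0 => (((hBa z hz h0).b22).inv (hBC z hz h0).isUnit22.ne_zero).mul (hBa z hz h0).b21)
    (fun z hz h0 i j => (hBC z hz h0).kappa_entry i j)
  have hga : ∀ z ∈ disc, AnalyticPt g z := analyticPt_iff.1 hg.1
  refine ⟨K, ⟨analyticPt_iff.2 hKa, fun z hz => (one_sub_iff _).2 fun y => ?_⟩, fun z hz => ?_⟩
  · have hcont : ContinuousAt (fun w => nsq (K w *ᵥ y)) z :=
      tendsto_nsq (continuousAt_entries (hKa z hz)) y
    refine le_of_ev hcont continuousAt_const ?_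
    filter_upwards [ev_ne hd hne hz] with w hw
    rw [hKe w hw.1 hw.2]
    exact (hBC w hw.1 hw.2).kappa y
  · refine eq_of_ev
      (φ := fun z => (K z * (S z).toBlocks₁₂ + (S z).toBlocks₂₂) * g z)
      (ψ := fun z => K z * (S z).toBlocks₁₁ + (S z).toBlocks₂₁)
      (continuousAt_entries ((((hKa z hz).mul (hSa z hz).b12).add (hSa z hz).b22).mul
        (hga z hz)))
      (continuousAt_entries (((hKa z hz).mul (hSa z hz).b11).add (hSa z hz).b21)) ?_
    filter_upwards [ev_ne hd hne hz] with w hw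
    have hBu := (hBC w hw.1 hw.2).isUnit22
    have hWu := (hWC w hw.1 hw.2).isUnit22
    have e1 := mul_blocks22 (B w) (S w)
    have e2 := mul_blocks21 (B w) (S w)
    rw [hBS w hw.1] at e1 e2
    have f1 : K w * (S w).toBlocks₁₂ + (S w).toBlocks₂₂
        = (B w).toBlocks₂₂⁻¹ * (W w).toBlocks₂₂ := by
      rw [e1, hKe w hw.1 hw.2, Matrix.mul_add, ← Matrix.mul_assoc, ← Matrix.mul_assoc,
        nonsing_inv_mul _ hBu, Matrix.one_mul]
    have f2 : K w * (S w).toBlocks₁₁ + (S w).toBlocks₂₁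
        = (B w).toBlocks₂₂⁻¹ * (W w).toBlocks₂₁ := by
      rw [e2, hKe w hw.1 hw.2, Matrix.mul_add, ← Matrix.mul_assoc, ← Matrix.mul_assoc,
        nonsing_inv_mul _ hBu, Matrix.one_mul]
    rw [f1, f2, hg.2 w hw.1 (hWa w hw.1 hw.2), Matrix.mul_assoc, ← Matrix.mul_assoc
      (W w).toBlocks₂₂, mul_nonsing_inv _ hWu, Matrix.one_mul]

/-- **Criterion.** Let `g = κ_W` and let `S` be A-singular. Then `S` is a right divisor of `W` if
and only if `g` is the linear fractional image under `S` of a Schur function. -/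
theorem div_iff {W S : ℂ → Matrix (m ⊕ n) (m ⊕ n) ℂ} (hW : JInner W) (hS : ASingular S)
    {g : ℂ → Matrix n m ℂ} (hg : IsKappa W g) :
    JInner (fun z => W z * (S z)⁻¹) ↔ ∃ g' : ℂ → Matrix n m ℂ, IsSchur g' ∧
      ∀ z ∈ disc, (g' z * (S z).toBlocks₁₂ + (S z).toBlocks₂₂) * g z
        = g' z * (S z).toBlocks₁₁ + (S z).toBlocks₂₁ :=
  ⟨of_div hW hS hg, fun ⟨_, h1, h2⟩ => div_of hW hS hg h1 h2⟩

/-- All functions in `𝒰(p,q)` with the same `κ` have the same A-singular right divisors. -/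
theorem div_only {W W' S : ℂ → Matrix (m ⊕ n) (m ⊕ n) ℂ} (hW : JInner W) (hW' : JInner W')
    (hS : ASingular S) {g : ℂ → Matrix n m ℂ} (hg : IsKappa W g) (hg' : IsKappa W' g) :
    JInner (fun z => W z * (S z)⁻¹) ↔ JInner (fun z => W' z * (S z)⁻¹) := by
  rw [div_iff hW hS hg, div_iff hW' hS hg']

/-- left regularity depends only on `κ` -/
theorem regular_iff {W W' : ℂ → Matrix (m ⊕ n) (m ⊕ n) ℂ} (hW : JInner W) (hW' : JInner W')
    {g : ℂ → Matrix n m ℂ} (hg : IsKappa W g) (hg' : IsKappa W' g) :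
    LeftRegular W ↔ LeftRegular W' :=
  ⟨fun h => ⟨hW', fun S hS hD => h.regular S hS ((div_only hW hW' hS hg hg').2 hD)⟩,
    fun h => ⟨hW, fun S hS hD => h.regular S hS ((div_only hW hW' hS hg hg').1 hD)⟩⟩

/-- `g = κ_W` for some left regular `W` iff `g = κ_W` for some `W ∈ 𝒰(p,q)` and every A-singular
`S` such that `g` is the linear fractional image under `S` of a Schur function is constant. -/
theorem kappa_lr_iff (g : ℂ → Matrix n m ℂ) :
    (∃ W : ℂ → Matrix (m ⊕ n) (m ⊕ n) ℂ, LeftRegular W ∧ IsKappa W g) ↔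
      (∃ W : ℂ → Matrix (m ⊕ n) (m ⊕ n) ℂ, JInner W ∧ IsKappa W g) ∧
      ∀ S : ℂ → Matrix (m ⊕ n) (m ⊕ n) ℂ, ASingular S →
        (∃ g' : ℂ → Matrix n m ℂ, IsSchur g' ∧
          ∀ z ∈ disc, (g' z * (S z).toBlocks₁₂ + (S z).toBlocks₂₂) * g z
            = g' z * (S z).toBlocks₁₁ + (S z).toBlocks₂₁) →
        ∃ C, ∀ z ∈ disc, S z = C := by
  constructor
  · rintro ⟨W, hW, hg⟩
    exact ⟨⟨W, hW.jInner, hg⟩, fun S hS h =>
      hW.regular S hS ((div_iff hW.jInner hS hg).2 h)⟩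
  · rintro ⟨⟨W, hW, hg⟩, h⟩
    exact ⟨W, ⟨hW, fun S hS hD => h S hS ((div_iff hW hS hg).1 hD)⟩, hg⟩

end Pool.Agent.H2RJ
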