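import Pool.Agent.H2RJ.Pole

open Filter Topology Complex MeasureTheory Set Metric Matrix
open scoped Real ENNReal NNReal ComplexOrder

namespace Pool.Agent.H2RJ

open Pool.Agent.RegJ Pool.Agent.RegK

set_option linter.unusedSectionVars false

variable {m n : Type*} [Fintype m] [DecidableEq m] [Fintype n] [DecidableEq n]

/-- `c (1 + μ z)/(1 - μ z)` -/
noncomputable def kz (μ : ℂ) (c : ℝ) (z : ℂ) : ℂ := c * ((1 + μ * z) / (1 - μ * z))

/-- the signature image of `(x, y)` -/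
def bv (x : m → ℂ) (y : n → ℂ) : m ⊕ n → ℂ := Sum.elim x (-y)

/-- the square zero matrix `v v* j` with `v = (x, y)` -/
def NV (x : m → ℂ) (y : n → ℂ) : Matrix (m ⊕ n) (m ⊕ n) ℂ :=
  vecMulVec (Sum.elim x y) (star (bv x y))

/-- the elementary A-singular function -/
noncomputable def SV (μ : ℂ) (c : ℝ) (x : m → ℂ) (y : n → ℂ) (z : ℂ) :
    Matrix (m ⊕ n) (m ⊕ n) ℂ := 1 + (-kz μ c z) • NV x y

lemma sgn_v (x : m → ℂ) (y : n → ℂ) : sgnMat m n *ᵥ (Sum.elim x y) = bv x y := by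
  unfold sgnMat bv
  rw [fromBlocks_mulVec]
  simp [neg_mulVec]

lemma dot_bv {x : m → ℂ} {y : n → ℂ} (h : nsq x = nsq y) :
    star (bv x y) ⬝ᵥ (Sum.elim x y) = 0 := by
  have : star (bv x y) ⬝ᵥ (Sum.elim x y) = star x ⬝ᵥ x - star y ⬝ᵥ y := by
    simp [bv, dotProduct, Fintype.sum_sum_type, sub_eq_add_neg]
  rw [this, star_dot_self, star_dot_self, h, sub_self]

lemma NV_sq {x : m → ℂ} {y : n → ℂ} (h : nsq x = nsq y) : NV x y * NV x y = 0 := by
  rw [NV, vecMulVec_mul_vecMulVec, dot_bv h]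
  simp

lemma SV_mul {x : m → ℂ} {y : n → ℂ} (h : nsq x = nsq y) (c : ℂ) :
    (1 + (-c) • NV x y) * (1 + c • NV x y) = (1 : Matrix (m ⊕ n) (m ⊕ n) ℂ) := by
  rw [Matrix.add_mul, Matrix.mul_add, Matrix.mul_add, smul_mul_smul_comm, NV_sq h]
  simp

lemma SV_inv {x : m → ℂ} {y : n → ℂ} (h : nsq x = nsq y) (μ : ℂ) (c : ℝ) (z : ℂ) :
    (SV μ c x y z)⁻¹ = 1 + kz μ c z • NV x y :=
  inv_eq_right_inv (SV_mul h (kz μ c z))

lemma sgn_NV (x : m → ℂ) (y : n → ℂ) :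
    sgnMat m n * NV x y = vecMulVec (bv x y) (star (bv x y)) := by
  rw [NV, Matrix.mul_vecMulVec, sgn_v]

lemma NVH_sgn (x : m → ℂ) (y : n → ℂ) :
    (NV x y)ᴴ * sgnMat m n = vecMulVec (bv x y) (star (bv x y)) := by
  have h : (sgnMat m n * NV x y)ᴴ = (NV x y)ᴴ * sgnMat m n := by
    rw [conjTranspose_mul, sgn_herm]
  rw [← h, sgn_NV, conjTranspose_vecMulVec, star_star]

lemma form_SV {x : m → ℂ} {y : n → ℂ} (h : nsq x = nsq y) (c : ℂ) :
    sgnMat m n - (1 + (-c) • NV x y)ᴴ * sgnMat m n * (1 + (-c) • NV x y)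
      = ((2 * c.re : ℝ) : ℂ) • vecMulVec (bv x y) (star (bv x y)) := by
  have h0 : vecMulVec (bv x y) (star (bv x y)) * NV x y = 0 := by
    rw [NV, vecMulVec_mul_vecMulVec, dot_bv h]; simp
  rw [conjTranspose_add, conjTranspose_smul, conjTranspose_one, Matrix.add_mul, Matrix.one_mul,
    Matrix.smul_mul, NVH_sgn, Matrix.add_mul, Matrix.mul_add, Matrix.mul_add, Matrix.mul_one,
    Matrix.mul_one, Matrix.mul_smul, sgn_NV, Matrix.smul_mul, Matrix.mul_smul, h0]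
  have : ((2 * c.re : ℝ) : ℂ) = c + star c := by
    rw [Complex.star_def, Complex.add_conj]
  rw [this, add_smul, star_neg, neg_smul, neg_smul]
  simp only [smul_zero]
  abel




lemma kz_re {μ : ℂ} (hμ : ‖μ‖ = 1) {c : ℝ} {z : ℂ} (hz : (1 : ℂ) - μ * z ≠ 0) :
    (kz μ c z).re = c * ((1 - ‖z‖ ^ 2) / ‖(1 : ℂ) - μ * z‖ ^ 2) := by
  rw [kz, Complex.re_ofReal_mul]
  congr 1
  have hn : ‖z‖ = ‖μ * z‖ := by rw [norm_mul, hμ, one_mul]
  rw [hn, Complex.div_re, ← Complex.normSq_eq_norm_sq, ← Complex.normSq_eq_norm_sq,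
    ← add_div]
  congr 1
  simp [Complex.normSq_apply]
  ring

lemma kz_re_nonneg {μ : ℂ} (hμ : ‖μ‖ = 1) {c : ℝ} (hc : 0 ≤ c) {z : ℂ} (hz : z ∈ disc) :
    0 ≤ (kz μ c z).re := by
  have hz' : ‖z‖ < 1 := by simpa [disc] using hz
  rw [kz_re hμ (one_sub_mul_ne hμ hz)]
  have : ‖z‖ ^ 2 ≤ 1 := by
    have := norm_nonneg z
    nlinarith
  exact mul_nonneg hc (div_nonneg (by linarith) (by positivity))

lemma kz_re_zero {μ : ℂ} (hμ : ‖μ‖ = 1) {c : ℝ} {z : ℂ} (hz : ‖z‖ = 1)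
    (h1 : (1 : ℂ) - μ * z ≠ 0) : (kz μ c z).re = 0 := by
  rw [kz_re hμ h1, hz]; simp

lemma jInner_SV {μ : ℂ} (hμ : ‖μ‖ = 1) {c : ℝ} (hc : 0 ≤ c) {x : m → ℂ} {y : n → ℂ}
    (h : nsq x = nsq y) : JInner (SV μ c x y) := by
  obtain ⟨-, hne, -⟩ := maj_pole_rot hμ
  have han : ∀ z ∈ disc, AnalyticPt (SV μ c x y) z := by
    intro z hz a b
    have h1 := one_sub_mul_ne hμ hz
    simp only [SV, Matrix.add_apply, Matrix.smul_apply, smul_eq_mul, kz]
    fun_prop (disch := exact h1)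
  constructor
  · refine ⟨fun z => 1 - μ * z, fun z => (1 - μ * z) • (1 : Matrix (m ⊕ n) (m ⊕ n) ℂ)
      + (-(c * (1 + μ * z))) • NV x y,
      2 + ∑ a, ∑ b, (2 * ‖(1 : Matrix (m ⊕ n) (m ⊕ n) ℂ) a b‖ + c * 2 * ‖NV x y a b‖),
      by fun_prop,
      ?_, ?_, ⟨0, by simp [disc], by norm_num⟩, ?_⟩
    · intro a b
      simp only [Matrix.add_apply, Matrix.smul_apply, smul_eq_mul]
      fun_prop
    · intro z hz
      have hz' : ‖z‖ < 1 := by simpa [disc] using hz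
      have h1 : ‖(1 : ℂ) - μ * z‖ ≤ 2 := by
        have := norm_sub_le (1 : ℂ) (μ * z)
        rw [norm_one, norm_mul, hμ, one_mul] at this
        linarith
      have h2 : ‖-((c : ℂ) * (1 + μ * z))‖ ≤ c * 2 := by
        have := norm_add_le (1 : ℂ) (μ * z)
        rw [norm_one, norm_mul, hμ, one_mul] at this
        rw [norm_neg, norm_mul, Complex.norm_real, Real.norm_eq_abs, abs_of_nonneg hc]
        exact mul_le_mul_of_nonneg_left (by linarith) hc
      have hnn : ∀ a b, 0 ≤ 2 * ‖(1 : Matrix (m ⊕ n) (m ⊕ n) ℂ) a b‖ + c * 2 * ‖NV x y a b‖ :=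
        fun a b => by positivity
      constructor
      · have : 0 ≤ ∑ a, ∑ b, (2 * ‖(1 : Matrix (m ⊕ n) (m ⊕ n) ℂ) a b‖ + c * 2 * ‖NV x y a b‖) :=
          Finset.sum_nonneg fun a _ => Finset.sum_nonneg fun b _ => hnn a b
        linarith
      · intro a b
        simp only [Matrix.add_apply, Matrix.smul_apply, smul_eq_mul]
        have h3 : ‖(1 - μ * z) * (1 : Matrix (m ⊕ n) (m ⊕ n) ℂ) a b
            + -(c * (1 + μ * z)) * NV x y a b‖
            ≤ 2 * ‖(1 : Matrix (m ⊕ n) (m ⊕ n) ℂ) a b‖ + c * 2 * ‖NV x y a b‖ := by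
          refine (norm_add_le _ _).trans ?_
          rw [norm_mul, norm_mul]
          gcongr
        have h4 : 2 * ‖(1 : Matrix (m ⊕ n) (m ⊕ n) ℂ) a b‖ + c * 2 * ‖NV x y a b‖
            ≤ ∑ b, (2 * ‖(1 : Matrix (m ⊕ n) (m ⊕ n) ℂ) a b‖ + c * 2 * ‖NV x y a b‖) :=
          Finset.single_le_sum (f := fun b => 2 * ‖(1 : Matrix (m ⊕ n) (m ⊕ n) ℂ) a b‖
            + c * 2 * ‖NV x y a b‖) (fun b _ => hnn a b) (Finset.mem_univ b)
        have h5 : ∑ b, (2 * ‖(1 : Matrix (m ⊕ n) (m ⊕ n) ℂ) a b‖ + c * 2 * ‖NV x y a b‖)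
            ≤ ∑ a, ∑ b, (2 * ‖(1 : Matrix (m ⊕ n) (m ⊕ n) ℂ) a b‖ + c * 2 * ‖NV x y a b‖) :=
          Finset.single_le_sum (f := fun a => ∑ b, (2 * ‖(1 : Matrix (m ⊕ n) (m ⊕ n) ℂ) a b‖
            + c * 2 * ‖NV x y a b‖)) (fun a _ => Finset.sum_nonneg fun b _ => hnn a b)
            (Finset.mem_univ a)
        linarith
    · intro z hz h1
      simp only at h1 ⊢
      rw [SV, smul_add, smul_smul, smul_smul, inv_mul_cancel₀ h1, one_smul, kz]
      congr 2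
      field_simp
  · refine ⟨0, by simp [disc], han 0 (by simp [disc]), ?_⟩
    have h := SV_mul h (kz μ c 0)
    have h2 := congrArg Matrix.det h
    rw [det_mul, det_one] at h2
    exact left_ne_zero_of_mul_eq_one h2
  · intro z hz _
    rw [SV, form_SV h]
    refine PosSemidef.smul (posSemidef_vecMulVec_self_star _) ?_
    have := kz_re_nonneg hμ hc hz
    rw [Complex.zero_le_real]
    linarith
  · filter_upwards [hne, ae_norm] with ζ h1 hn
    refine ⟨SV μ c x y ζ, ?_, ?_⟩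
    · have hcc : ContinuousAt (fun r : ℝ => (SV μ c x y (r * ζ))) 1 := by
        have h2 : ContinuousAt (fun r : ℝ => (1 : ℂ) + μ * ((r : ℂ) * ζ)) 1 := by fun_prop
        have h3 : ContinuousAt (fun r : ℝ => (1 : ℂ) - μ * ((r : ℂ) * ζ)) 1 := by fun_prop
        have h4 : ContinuousAt (fun r : ℝ => kz μ c (r * ζ)) 1 :=
          (h2.div h3 (by simpa using h1)).const_mul _
        exact continuousAt_const.add (h4.neg.smul continuousAt_const)
      have h2 := hcc.tendsto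
      simp only [Complex.ofReal_one, one_mul] at h2
      exact h2.mono_left nhdsWithin_le_nhds
    · have h2 := form_SV h (kz μ c ζ)
      rw [kz_re_zero hμ hn h1] at h2
      simp only [mul_zero, Complex.ofReal_zero, zero_smul] at h2
      exact (sub_eq_zero.1 h2).symm

theorem aSingular_SV {μ : ℂ} (hμ : ‖μ‖ = 1) {c : ℝ} (hc : 0 ≤ c) {x : m → ℂ} {y : n → ℂ}
    (h : nsq x = nsq y) : ASingular (SV μ c x y) := by
  refine ⟨jInner_SV hμ hc h, fun a b => ?_, fun a b => ?_⟩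
  · have := smirnov_pole_rot hμ ((1 : Matrix (m ⊕ n) (m ⊕ n) ℂ) a b) (-(c * NV x y a b))
    convert this using 2 with z
    simp only [SV, Matrix.add_apply, Matrix.smul_apply, smul_eq_mul, kz]
    ring
  · have := smirnov_pole_rot hμ ((1 : Matrix (m ⊕ n) (m ⊕ n) ℂ) a b) (c * NV x y a b)
    convert this using 2 with z
    rw [SV_inv h]
    simp only [Matrix.add_apply, Matrix.smul_apply, smul_eq_mul, kz]
    ring

theorem not_const_SV {μ : ℂ} (hμ : ‖μ‖ = 1) {c : ℝ} (hc : 0 < c) {x : m → ℂ} {y : n → ℂ}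
    (hx : x ≠ 0) : ¬ ∃ C, ∀ z ∈ disc, SV μ c x y z = C := by
  rintro ⟨C, hC⟩
  obtain ⟨i, hi⟩ : ∃ i, x i ≠ 0 := by
    by_contra hcon
    push Not at hcon
    exact hx (funext hcon)
  have hμ0 : μ ≠ 0 := by rintro rfl; simp at hμ
  have hz1 : (μ⁻¹ * (1 / 2) : ℂ) ∈ disc := by
    simp only [mem_ball, dist_zero_right, norm_mul, norm_inv, hμ]
    norm_num
  have h0 := hC 0 (by simp [disc])
  have h1 := hC _ hz1
  have h2 := congrFun (congrFun (h0.trans h1.symm) (Sum.inl i)) (Sum.inl i)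
  have e0 : kz μ c 0 = c := by simp [kz]
  have e1 : kz μ c (μ⁻¹ * (1 / 2)) = 3 * c := by
    have : μ * (μ⁻¹ * (1 / 2)) = 1 / 2 := by field_simp
    rw [kz, this]
    ring
  have hN : NV x y (Sum.inl i) (Sum.inl i) = x i * star (x i) := by
    simp [NV, vecMulVec_apply, bv]
  simp only [SV, Matrix.add_apply, Matrix.smul_apply, smul_eq_mul, e0, e1, hN] at h2
  have h3 : (2 * (c : ℂ)) * (x i * star (x i)) = 0 := by linear_combination h2
  have hc' : (c : ℂ) ≠ 0 := by exact_mod_cast hc.ne'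
  have : star (x i) ≠ 0 := star_ne_zero.2 hi
  exact (mul_ne_zero (mul_ne_zero two_ne_zero hc') (mul_ne_zero hi this)) h3

end Pool.Agent.H2RJ
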