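import Pool.Agent.RegK.Pole
import Pool.Agent.H2RJ.Crit

open Filter Topology Complex MeasureTheory Set Metric Matrix
open scoped Real ENNReal NNReal ComplexOrder

namespace Pool.Agent.H2RJ

open Pool.Agent.RegJ Pool.Agent.RegK

set_option linter.unusedSectionVars false

lemma one_sub_mul_ne {μ z : ℂ} (hμ : ‖μ‖ = 1) (hz : z ∈ ball (0 : ℂ) 1) :
    (1 : ℂ) - μ * z ≠ 0 := by
  refine one_sub_ne ?_
  have hz' : ‖z‖ < 1 := by simpa using hz
  simpa [hμ] using hz'

/-- `(1 - μ z)⁻¹` has an `L¹` Poisson majorant; a.e. `μ ζ ≠ 1` on the circle. -/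
lemma maj_pole_rot {μ : ℂ} (hμ : ‖μ‖ = 1) :
    Maj (fun z => (1 - μ * z)⁻¹) ∧ (∀ᵐ ζ ∂σ, (1 : ℂ) - μ * ζ ≠ 0) ∧
    ∃ g : ℂ → ℝ, Integrable g σ ∧ (∀ ζ, 0 ≤ g ζ) ∧
      ∀ᵐ ζ ∂σ, Real.posLog ‖((1 : ℂ) - μ * ζ)⁻¹‖ ≤ g ζ := by
  have hd : DifferentiableOn ℂ (fun z : ℂ => (1 - μ * z) / 2) (ball 0 1) := by fun_prop
  have hb : ∀ z ∈ ball (0 : ℂ) 1, ‖(1 - μ * z) / 2‖ ≤ 1 := by
    intro z hz
    have hz' : ‖z‖ < 1 := by simpa using hz
    rw [norm_div]
    have := norm_sub_le (1 : ℂ) (μ * z)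
    rw [norm_one, norm_mul, hμ, one_mul] at this
    rw [div_le_one (by norm_num)]
    simp only [Complex.norm_ofNat]
    linarith
  obtain ⟨g, -, hgi, hg0, hg⟩ := log_integrable hd hb ⟨0, by simp, by norm_num⟩
  have hg' : ∀ᵐ ζ ∂σ, (1 : ℂ) - μ * ζ ≠ 0 ∧ -Real.log ‖(1 - μ * ζ) / 2‖ ≤ g ζ := by
    filter_upwards [hg] with ζ hζ
    obtain ⟨L, hL, hL0, hLg⟩ := hζ
    have h1 : HasBdryValue (fun z : ℂ => (1 - μ * z) / 2) ζ ((1 - μ * ζ) / 2) := by
      have hc : Continuous (fun r : ℝ => ((1 : ℂ) - μ * ((r : ℂ) * ζ)) / 2) := by fun_prop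
      have h2 := hc.tendsto 1
      simp only [Complex.ofReal_one, one_mul] at h2
      exact h2.mono_left nhdsWithin_le_nhds
    have h3 : L = (1 - μ * ζ) / 2 := tendsto_nhds_unique hL h1
    subst h3
    refine ⟨fun h => hL0 (by rw [h]; simp), hLg⟩
  -- `posLog ‖(1 - μ r ζ)⁻¹‖ ≤ g ζ`
  have key : ∀ᵐ ζ ∂σ, ∀ r : ℝ, 0 ≤ r → r ≤ 1 →
      Real.posLog ‖((1 : ℂ) - μ * (r * ζ))⁻¹‖ ≤ g ζ := by
    filter_upwards [hg', ae_norm] with ζ hζ hn' r hr0 hr1
    have hn : ‖μ * ζ‖ = 1 := by rw [norm_mul, hμ, hn', one_mul]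
    have hpos : 0 < ‖(1 - μ * ζ) / 2‖ := by
      rw [norm_pos_iff]
      exact div_ne_zero hζ.1 (by norm_num)
    have h1 : ‖(1 - μ * ζ) / 2‖ ≤ ‖(1 : ℂ) - r * (μ * ζ)‖ := by
      have e1 : (1 : ℂ) - μ * ζ = (1 - r * (μ * ζ)) + ((r - 1 : ℝ) : ℂ) * (μ * ζ) := by
        push_cast; ring
      have e2 : ‖((r - 1 : ℝ) : ℂ) * (μ * ζ)‖ = 1 - r := by
        rw [norm_mul, hn, mul_one, Complex.norm_real, Real.norm_eq_abs, abs_of_nonpos (by linarith)]
        ring
      have e3 : 1 - r ≤ ‖(1 : ℂ) - r * (μ * ζ)‖ := by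
        have := norm_sub_norm_le (1 : ℂ) (r * (μ * ζ))
        rw [norm_one, norm_mul, hn, mul_one, Complex.norm_real, Real.norm_eq_abs,
          abs_of_nonneg hr0] at this
        exact this
      have e4 : ‖(1 : ℂ) - μ * ζ‖ ≤ ‖(1 : ℂ) - r * (μ * ζ)‖ + (1 - r) := by
        rw [← e2]
        conv_lhs => rw [e1]
        exact norm_add_le _ _
      rw [norm_div]
      simp only [Complex.norm_ofNat]
      linarith
    have h2 : ‖((1 : ℂ) - μ * (r * ζ))⁻¹‖ ≤ ‖(1 - μ * ζ) / 2‖⁻¹ := by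
      have e5 : μ * ((r : ℂ) * ζ) = r * (μ * ζ) := by ring
      rw [norm_inv, e5]
      exact inv_anti₀ hpos h1
    refine (Real.posLog_le_posLog (norm_nonneg _) h2).trans ?_
    rw [Real.posLog, Real.log_inv]
    exact max_le (hg0 ζ) hζ.2
  refine ⟨⟨g, hgi, hg0, fun z hz => ?_⟩, hg'.mono fun _ h => h.1, g, hgi, hg0, ?_⟩
  · have hz' : ‖z‖ < 1 := by simpa using hz
    have hd1 : DifferentiableOn ℂ (fun z : ℂ => (1 - μ * z)⁻¹) (ball 0 1) := by
      intro w hw
      have h1 : DifferentiableAt ℂ (fun z : ℂ => 1 - μ * z) w := by fun_prop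
      exact (h1.inv (one_sub_mul_ne hμ hw)).differentiableWithinAt
    have h1 : ∀ n, Real.posLog ‖(1 - μ * ((rad n : ℂ) * z))⁻¹‖ ≤ PI g z := by
      intro n
      refine (poissonIneq_posLog hd1 hz' (rad_pos n) (rad_lt n)).trans ?_
      refine PI_mono ?_ hgi ?_ hz'
      · exact integrable_of_continuousOn (continuousOn_posLog
          (continuousOn_dilate hd1.continuousOn (rad_pos n).le (rad_lt n)))
      · filter_upwards [key] with ζ hζ
        exact hζ _ (rad_pos n).le (rad_lt n).le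
    exact le_of_tendsto (tendsto_dilate (continuousOn_posLog hd1.continuousOn) hz)
      (Eventually.of_forall h1)
  · filter_upwards [key] with ζ hζ
    have := hζ 1 zero_le_one le_rfl
    simpa using this

/-- `α + β (1 + μ z)/(1 - μ z)` is in the Smirnov class. -/
theorem smirnov_pole_rot {μ : ℂ} (hμ : ‖μ‖ = 1) (α β : ℂ) :
    Smirnov (fun z => α + β * ((1 + μ * z) / (1 - μ * z))) := by
  obtain ⟨hM, hne, g, hgi, hg0, hgb⟩ := maj_pole_rot hμ
  have hd : DifferentiableOn ℂ (fun z => α + β * ((1 + μ * z) / (1 - μ * z))) (ball 0 1) := by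
    intro w hw
    refine DifferentiableAt.differentiableWithinAt ?_
    have h1 : DifferentiableAt ℂ (fun z : ℂ => (1 + μ * z) / (1 - μ * z)) w :=
      (by fun_prop : DifferentiableAt ℂ (fun z : ℂ => 1 + μ * z) w).div
        (by fun_prop) (one_sub_mul_ne hμ hw)
    exact (h1.const_mul β).const_add α
  have hM' : Maj (fun z => α + β * ((1 + μ * z) * (1 - μ * z)⁻¹)) := by
    refine (Maj.const α).add ((Maj.const β).mul (Maj.mul ?_ hM))
    exact Maj.of_bound (C := 2) fun z hz => by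
      have hz' : ‖z‖ < 1 := by simpa using hz
      have := norm_add_le (1 : ℂ) (μ * z)
      rw [norm_one, norm_mul, hμ, one_mul] at this
      linarith
  have hM2 : Maj (fun z => α + β * ((1 + μ * z) / (1 - μ * z))) :=
    hM'.congr fun z _ => by rw [div_eq_mul_inv]
  refine smirnov_of_maj (hb := fun ζ => α + β * ((1 + μ * ζ) / (1 - μ * ζ)))
    (g := fun ζ => Real.posLog (2 * ‖β‖) + g ζ + (Real.posLog ‖α‖ + Real.log 2)) hd hM2 ?_ ?_ ?_ ?_
  · refine ⟨fun z => α * (1 - μ * z) + β * (1 + μ * z), fun z => 1 - μ * z,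
      ‖α‖ * 2 + ‖β‖ * 2 + 2, by fun_prop,
      by fun_prop, fun z hz => ?_, ⟨0, by simp [disc], by norm_num⟩, fun z hz => ?_⟩
    · have hz' : ‖z‖ < 1 := by simpa [disc] using hz
      have h1 : ‖(1 : ℂ) - μ * z‖ ≤ 2 := by
        have := norm_sub_le (1 : ℂ) (μ * z)
        rw [norm_one, norm_mul, hμ, one_mul] at this
        linarith
      have h2 : ‖(1 : ℂ) + μ * z‖ ≤ 2 := by
        have := norm_add_le (1 : ℂ) (μ * z)
        rw [norm_one, norm_mul, hμ, one_mul] at this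
        linarith
      constructor
      · refine (norm_add_le _ _).trans ?_
        rw [norm_mul, norm_mul]
        have h3 := mul_le_mul_of_nonneg_left h1 (norm_nonneg α)
        have h4 := mul_le_mul_of_nonneg_left h2 (norm_nonneg β)
        linarith
      · have := norm_nonneg α
        have := norm_nonneg β
        linarith
    · have := one_sub_mul_ne hμ hz
      field_simp
  · filter_upwards [hne] with ζ hζ
    have hc : ContinuousAt (fun r : ℝ => α + β * ((1 + μ * ((r : ℂ) * ζ)) /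
        (1 - μ * ((r : ℂ) * ζ)))) 1 := by
      have h1 : ContinuousAt (fun r : ℝ => (1 : ℂ) + μ * ((r : ℂ) * ζ)) 1 := by fun_prop
      have h2 : ContinuousAt (fun r : ℝ => (1 : ℂ) - μ * ((r : ℂ) * ζ)) 1 := by fun_prop
      exact ((h1.div h2 (by simpa using hζ)).const_mul β).const_add α
    have h2 := hc.tendsto
    simp only [Complex.ofReal_one, one_mul] at h2
    exact h2.mono_left nhdsWithin_le_nhds
  · exact ((integrable_const _).add hgi).add (integrable_const _)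
  · filter_upwards [hgb, ae_norm] with ζ hζ hn
    have h2 : ‖(1 : ℂ) + μ * ζ‖ ≤ 2 := by
      have := norm_add_le (1 : ℂ) (μ * ζ)
      rw [norm_one, norm_mul, hμ, hn, one_mul] at this
      linarith
    have h3 : ‖β * ((1 + μ * ζ) / (1 - μ * ζ))‖ ≤ (2 * ‖β‖) * ‖((1 : ℂ) - μ * ζ)⁻¹‖ := by
      rw [div_eq_mul_inv, norm_mul, norm_mul]
      have := norm_nonneg β
      have h4 := mul_le_mul_of_nonneg_right h2 (norm_nonneg ((1 : ℂ) - μ * ζ)⁻¹)
      have h5 := mul_le_mul_of_nonneg_left h4 this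
      linarith
    have h4 : Real.posLog ‖β * ((1 + μ * ζ) / (1 - μ * ζ))‖ ≤ Real.posLog (2 * ‖β‖) + g ζ := by
      refine (Real.posLog_le_posLog (norm_nonneg _) h3).trans ?_
      refine Real.posLog_mul.trans ?_
      linarith
    have h5 := Real.posLog_norm_add_le (α) (β * ((1 + μ * ζ) / (1 - μ * ζ)))
    linarith

end Pool.Agent.H2RJ
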