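import Pool.Agent.H2RJ.Julia

open Filter Topology Complex MeasureTheory Set Metric Matrix
open scoped Real ENNReal NNReal ComplexOrder

namespace Pool.Agent.H2RJ

open Pool.Agent.RegJ Pool.Agent.RegK

set_option linter.unusedSectionVars false

/-- elementary: `log⁺(t²)² ≤ 16 t` -/
lemma posLog_sq_sq {t : ℝ} (ht : 0 ≤ t) : Real.posLog (t ^ 2) ^ 2 ≤ 16 * t := by
  rcases le_or_gt t 1 with h | h
  · have : Real.posLog (t ^ 2) = 0 := by
      rw [Real.posLog_eq_zero_iff, abs_of_nonneg (by positivity)]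
      nlinarith
    rw [this]
    nlinarith
  · have h0 : 0 < t := by linarith
    have h1 : Real.posLog (t ^ 2) = 4 * Real.log (√t) := by
      rw [Real.posLog_eq_log (by rw [abs_of_nonneg (by positivity)]; nlinarith), Real.log_pow,
        Real.log_sqrt h0.le]
      push_cast; ring
    have h2 : Real.log (√t) ≤ √t := by
      have := Real.log_le_sub_one_of_pos (Real.sqrt_pos.2 h0)
      linarith
    have h3 : 0 ≤ Real.log (√t) := Real.log_nonneg (by
      rw [Real.one_le_sqrt]; exact h.le)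
    rw [h1]
    have h4 : (√t) ^ 2 = t := Real.sq_sqrt h0.le
    nlinarith [Real.sqrt_nonneg t]

/-- the square root of a function with positive real part -/
lemma exists_sqrt {τ : ℂ → ℂ} (hd : DifferentiableOn ℂ τ (ball 0 1))
    (hτ : ∀ z ∈ ball (0 : ℂ) 1, 0 < (τ z).re) :
    ∃ q : ℂ → ℂ, DifferentiableOn ℂ q (ball 0 1) ∧
      ∀ z ∈ ball (0 : ℂ) 1, q z ^ 2 = τ z ∧ ‖q z‖ ≤ 2 * (q z).re := by
  refine ⟨fun z => Complex.exp (Complex.log (τ z) / 2), ?_, fun z hz => ?_⟩
  · intro z hz
    have h1 : τ z ∈ Complex.slitPlane := Or.inl (hτ z hz)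
    have h2 : DifferentiableWithinAt ℂ (fun z => Complex.log (τ z)) (ball 0 1) z :=
      (hd z hz).clog h1
    exact (h2.div_const 2).cexp
  · have hre := hτ z hz
    have h0 : τ z ≠ 0 := by
      intro h; rw [h] at hre; simp at hre
    have h1 : Complex.exp (Complex.log (τ z) / 2) ^ 2 = τ z := by
      rw [← Complex.exp_nat_mul]
      have : ((2 : ℕ) : ℂ) * (Complex.log (τ z) / 2) = Complex.log (τ z) := by push_cast; ring
      rw [this, Complex.exp_log h0]
    refine ⟨h1, ?_⟩
    set q := Complex.exp (Complex.log (τ z) / 2) with hq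
    have h2 : 0 < q.re := by
      rw [hq, Complex.exp_re]
      apply mul_pos (Real.exp_pos _)
      have h3 : (Complex.log (τ z) / 2).im = Complex.arg (τ z) / 2 := by
        have : (Complex.log (τ z) / 2) = ((1 / 2 : ℝ) : ℂ) * Complex.log (τ z) := by
          push_cast; ring
        rw [this, Complex.im_ofReal_mul, Complex.log_im]; ring
      rw [h3]
      have h4 := Complex.abs_arg_le_pi (τ z)
      have h5 : |Complex.arg (τ z)| < π / 2 := Complex.abs_arg_lt_pi_div_two_iff.2 (Or.inl hre)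
      rw [abs_lt] at h5
      apply Real.cos_pos_of_mem_Ioo
      constructor <;> linarith [h5.1, h5.2, Real.pi_pos]
    have h3 : q.re ^ 2 - q.im ^ 2 = (τ z).re := by
      rw [← h1, sq q, Complex.mul_re]; ring
    have h4 : ‖q‖ ^ 2 ≤ (2 * q.re) ^ 2 := by
      rw [← Complex.normSq_eq_norm_sq, Complex.normSq_apply]
      nlinarith
    exact (sq_le_sq₀ (norm_nonneg _) (by linarith)).1 h4

/-- a holomorphic function with real part `≥ 1` has a Poisson majorant -/
theorem maj_of_re {τ : ℂ → ℂ} (hd : DifferentiableOn ℂ τ (ball 0 1))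
    (hτ : ∀ z ∈ ball (0 : ℂ) 1, 1 ≤ (τ z).re) :
    Maj τ ∧ ∃ g : ℂ → ℝ, Integrable g σ ∧ (∀ ζ, 0 ≤ g ζ) ∧
      ∀ᵐ ζ ∂σ, ∃ L, HasBdryValue τ ζ L ∧ Real.posLog ‖L‖ ≤ g ζ := by
  have hn1 : ∀ z ∈ ball (0 : ℂ) 1, 1 ≤ ‖τ z‖ := fun z hz =>
    (hτ z hz).trans ((le_abs_self _).trans (Complex.abs_re_le_norm _))
  have h0 : ∀ z ∈ ball (0 : ℂ) 1, τ z ≠ 0 := fun z hz h => by
    have := hn1 z hz
    rw [h, norm_zero] at this
    linarith
  have hbd : DifferentiableOn ℂ (fun z => (τ z)⁻¹) (ball 0 1) := hd.inv h0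
  have hb1 : ∀ z ∈ ball (0 : ℂ) 1, ‖(τ z)⁻¹‖ ≤ 1 := by
    intro z hz
    rw [norm_inv]
    exact inv_le_one_of_one_le₀ (hn1 z hz)
  obtain ⟨g, hgm, hgi, hg0, hg⟩ := log_integrable hbd hb1 ⟨0, by simp, inv_ne_zero (h0 0 (by simp))⟩
  have hbv : ∀ᵐ ζ ∂σ, ∃ L, HasBdryValue τ ζ L ∧ Real.posLog ‖L‖ ≤ g ζ := by
    filter_upwards [hg, ae_norm] with ζ hζ hn
    obtain ⟨L, hL, hL0, hLg⟩ := hζ
    refine ⟨L⁻¹, ?_, ?_⟩
    · have h1 := Tendsto.inv₀ hL hL0
      simp only [inv_inv] at h1
      exact h1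
    · rw [norm_inv, Real.posLog, Real.log_inv]
      exact max_le (hg0 ζ) hLg
  refine ⟨⟨g, hgi, hg0, fun z hz => ?_⟩, g, hgi, hg0, hbv⟩
  have hz' : ‖z‖ < 1 := by simpa using hz
  obtain ⟨q, hqd, hq⟩ := exists_sqrt hd fun z hz => lt_of_lt_of_le one_pos (hτ z hz)
  set un : ℕ → ℂ → ℝ := fun n ζ => Real.posLog ‖τ (rad n * ζ)‖ with hun
  have hunc : ∀ n, ContinuousOn (un n) (sphere 0 1) := fun n =>
    continuousOn_posLog (continuousOn_dilate hd.continuousOn (rad_pos n).le (rad_lt n))
  -- `L²` bound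
  set B : ℝ := 32 * (q 0).re with hB
  have hmaps : ∀ n, ∀ ζ : ℂ, ‖ζ‖ ≤ 1 → (rad n : ℂ) * ζ ∈ ball (0 : ℂ) 1 := by
    intro n ζ hζ
    rw [mem_ball_zero_iff, norm_mul, Complex.norm_real, Real.norm_eq_abs,
      abs_of_nonneg (rad_pos n).le]
    nlinarith [norm_nonneg ζ, rad_pos n, rad_lt n]
  have hqmean : ∀ n, ∫ ζ, (q (rad n * ζ)).re ∂σ = (q 0).re := by
    intro n
    have hdd : DifferentiableOn ℂ (fun ζ : ℂ => q (rad n * ζ)) (closedBall 0 1) := by
      refine hqd.comp (by fun_prop) ?_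
      intro ζ hζ
      exact hmaps n ζ (by simpa using hζ)
    have h1 : DiffContOnCl ℂ (fun ζ : ℂ => q (rad n * ζ)) (ball 0 |1|) := by
      rw [abs_one]
      apply DifferentiableOn.diffContOnCl
      rw [closure_ball _ one_ne_zero]
      exact hdd
    have h2 := h1.circleAverage
    have h3 : ∫ ζ, q (rad n * ζ) ∂σ = q 0 := by
      rw [integral_σ (aesm_of_continuousOn (hdd.continuousOn.mono sphere_subset_closedBall))]
      simpa using h2
    have h4 := integral_re (𝕜 := ℂ)
      (integrable_of_continuousOn (hdd.continuousOn.mono sphere_subset_closedBall))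
    simp only [RCLike.re_eq_complex_re] at h4
    rw [h4, h3]
  have hL2 : ∀ n, ∫ ζ, un n ζ ^ 2 ∂σ ≤ B := by
    intro n
    have hqi : Integrable (fun ζ => 32 * (q (rad n * ζ)).re) σ := by
      apply Integrable.const_mul
      apply integrable_of_continuousOn
      exact Complex.continuous_re.comp_continuousOn
        (continuousOn_dilate hqd.continuousOn (rad_pos n).le (rad_lt n))
    calc ∫ ζ, un n ζ ^ 2 ∂σ ≤ ∫ ζ, 32 * (q (rad n * ζ)).re ∂σ := by
          apply integral_mono_ae (integrable_of_continuousOn ((hunc n).pow 2)) hqi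
          filter_upwards [ae_norm] with ζ hζ
          obtain ⟨h1, h2⟩ := hq _ (hmaps n ζ hζ.le)
          have h3 := posLog_sq_sq (norm_nonneg (q (rad n * ζ)))
          rw [← norm_pow, h1] at h3
          change Real.posLog ‖τ (rad n * ζ)‖ ^ 2 ≤ 32 * (q (rad n * ζ)).re
          linarith
      _ = B := by rw [integral_const_mul, hqmean n]
  set Cz : ℝ := (1 + ‖z‖) / (1 - ‖z‖) with hCz
  have hCz0 : 0 ≤ Cz := by
    have := norm_nonneg z
    exact div_nonneg (by linarith) (by linarith)
  have hkey : ∀ K : ℝ, 0 < K → Real.posLog ‖τ z‖ ≤ PI g z + Cz * B / K := by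
    intro K hK
    have h1 : ∀ n, Real.posLog ‖τ (rad n * z)‖ ≤ ∫ ζ, P z ζ * min (un n ζ) K ∂σ + Cz * B / K := by
      intro n
      refine (poissonIneq_posLog hd hz' (rad_pos n) (rad_lt n)).trans ?_
      have hi1 : Integrable (fun ζ => min (un n ζ) K) σ :=
        integrable_of_continuousOn
          ((continuous_id.min continuous_const).comp_continuousOn (hunc n))
      have hi2 : Integrable (fun ζ => un n ζ ^ 2) σ := integrable_of_continuousOn ((hunc n).pow 2)
      have h2 : PI (un n) z ≤ ∫ ζ, (P z ζ * min (un n ζ) K + Cz / K * un n ζ ^ 2) ∂σ := by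
        unfold PI
        apply integral_mono_ae (integrable_P_mul hz' (integrable_of_continuousOn (hunc n)))
          ((integrable_P_mul hz' hi1).add (hi2.const_mul _))
        filter_upwards [ae_norm] with ζ hζ
        have hP0 := P_nonneg hz' hζ
        have hP1 := P_le hz' hζ
        have hu0 : 0 ≤ un n ζ := Real.posLog_nonneg
        have h3 : un n ζ ≤ min (un n ζ) K + un n ζ ^ 2 / K := by
          rcases le_total (un n ζ) K with h | h
          · rw [min_eq_left h]
            have : 0 ≤ un n ζ ^ 2 / K := by positivity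
            linarith
          · rw [min_eq_right h]
            have : un n ζ ≤ un n ζ ^ 2 / K := by
              rw [le_div_iff₀ hK, sq]
              exact mul_le_mul_of_nonneg_left h hu0
            linarith
        have h4 := mul_le_mul_of_nonneg_left h3 hP0
        have h5 : P z ζ * (un n ζ ^ 2 / K) ≤ Cz * (un n ζ ^ 2 / K) :=
          mul_le_mul_of_nonneg_right hP1 (by positivity)
        have h6 : Cz / K * un n ζ ^ 2 = Cz * (un n ζ ^ 2 / K) := by ring
        simp only [Pi.add_apply]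
        rw [h6]
        linarith
      refine h2.trans ?_
      rw [integral_add (integrable_P_mul hz' hi1) (hi2.const_mul _), integral_const_mul]
      have h7 : Cz / K * ∫ ζ, un n ζ ^ 2 ∂σ ≤ Cz / K * B :=
        mul_le_mul_of_nonneg_left (hL2 n) (by positivity)
      have h8 : Cz / K * B = Cz * B / K := by ring
      linarith
    obtain ⟨T, hT⟩ := hbv.choice
    have h2 : Tendsto (fun n => ∫ ζ, P z ζ * min (un n ζ) K ∂σ) atTop
        (𝓝 (∫ ζ, P z ζ * min (Real.posLog ‖T ζ‖) K ∂σ)) := by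
      apply tendsto_integral_of_dominated_convergence (fun _ => Cz * K)
      · intro n
        apply aesm_of_continuousOn
        exact (continuousOn_P hz').mul
          ((continuous_id.min continuous_const).comp_continuousOn (hunc n))
      · exact integrable_const _
      · intro n
        filter_upwards [ae_norm] with ζ hζ
        have hu0 : 0 ≤ un n ζ := Real.posLog_nonneg
        have hm0 : 0 ≤ min (un n ζ) K := le_min hu0 hK.le
        rw [Real.norm_eq_abs, abs_of_nonneg (mul_nonneg (P_nonneg hz' hζ) hm0)]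
        exact mul_le_mul (P_le hz' hζ) (min_le_right _ _) hm0 hCz0
      · filter_upwards [hT] with ζ hζ
        have h3 : Tendsto (fun n => un n ζ) atTop (𝓝 (Real.posLog ‖T ζ‖)) :=
          (Real.continuous_posLog.tendsto _).comp ((hζ.1.comp tendsto_rad).norm)
        exact (h3.min tendsto_const_nhds).const_mul _
    have h3 : Tendsto (fun n => Real.posLog ‖τ (rad n * z)‖) atTop (𝓝 (Real.posLog ‖τ z‖)) :=
      tendsto_dilate (continuousOn_posLog hd.continuousOn) hz
    have h4 : Real.posLog ‖τ z‖ ≤ ∫ ζ, P z ζ * min (Real.posLog ‖T ζ‖) K ∂σ + Cz * B / K :=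
      le_of_tendsto_of_tendsto' h3 (h2.add_const _) h1
    have h5 : ∫ ζ, P z ζ * min (Real.posLog ‖T ζ‖) K ∂σ ≤ PI g z := by
      unfold PI
      refine integral_mono_of_nonneg ?_ (integrable_P_mul hz' hgi) ?_
      · filter_upwards [ae_norm] with ζ hζ
        exact mul_nonneg (P_nonneg hz' hζ) (le_min Real.posLog_nonneg hK.le)
      · filter_upwards [ae_norm, hT] with ζ hζ h6
        exact mul_le_mul_of_nonneg_left ((min_le_left _ _).trans h6.2) (P_nonneg hz' hζ)
    linarith
  have hlim : Tendsto (fun K : ℝ => PI g z + Cz * B / K) atTop (𝓝 (PI g z + 0)) :=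
    tendsto_const_nhds.add (tendsto_const_nhds.div_atTop tendsto_id)
  rw [add_zero] at hlim
  exact ge_of_tendsto hlim (by
    filter_upwards [eventually_gt_atTop 0] with K hK
    exact hkey K hK)

end Pool.Agent.H2RJ
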