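import Pool.Agent.H2RJ.Clark

open Filter Topology Complex MeasureTheory Set Metric Matrix
open scoped Real ENNReal NNReal ComplexOrder

namespace Pool.Agent.H2RJ

open Pool.Agent.RegJ Pool.Agent.RegK

set_option linter.unusedSectionVars false

variable {m n : Type*} [Fintype m] [DecidableEq m] [Fintype n] [DecidableEq n]

/-- maximum principle for rectangular matrix functions -/
lemma rect_max {B : ℂ → Matrix n m ℂ} (hBa : ∀ z ∈ disc, AnalyticPt B z) (hBm : MajM B)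
    (hb : ∀ᵐ ζ ∂σ, ∃ L, HasBdryValue B ζ L ∧ ∀ v, nsq (L *ᵥ v) ≤ nsq v) :
    ∀ z ∈ disc, ∀ v, nsq (B z *ᵥ v) ≤ nsq v := by
  set A : ℂ → Matrix (m ⊕ n) (m ⊕ n) ℂ := fun z => fromBlocks 0 0 (B z) 0 with hA
  have hAa : ∀ z ∈ disc, AnalyticPt A z := by
    intro z hz i j
    rcases i with i | i <;> rcases j with j | j
    · exact analyticAt_const
    · exact analyticAt_const
    · exact hBa z hz i j
    · exact analyticAt_const
  have hAm : MajM A := by
    intro i j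
    rcases i with i | i <;> rcases j with j | j
    · exact Maj.const _
    · exact Maj.const _
    · exact hBm i j
    · exact Maj.const _
  have hAv : ∀ (B : Matrix n m ℂ) (x : m → ℂ) (y : n → ℂ),
      (fromBlocks 0 0 B 0 : Matrix (m ⊕ n) (m ⊕ n) ℂ) *ᵥ (Sum.elim x y)
        = Sum.elim (0 : m → ℂ) (B *ᵥ x) := by
    intro B x y
    rw [fromBlocks_mulVec]
    simp
  have hAc : ∀ z ∈ disc, ∀ v, nsq (A z *ᵥ v) ≤ nsq v := by
    apply maj_bounded_form hAa hAm
    filter_upwards [hb] with ζ hζ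
    obtain ⟨L, hL, hLc⟩ := hζ
    refine ⟨fromBlocks 0 0 L 0, ?_, fun v => ?_⟩
    · refine tendsto_entries.2 fun i j => ?_
      rcases i with i | i <;> rcases j with j | j
      · exact tendsto_const_nhds
      · exact tendsto_const_nhds
      · exact tendsto_entries.1 hL i j
      · exact tendsto_const_nhds
    · have hv : v = Sum.elim (v ∘ Sum.inl) (v ∘ Sum.inr) := (Sum.elim_comp_inl_inr v).symm
      rw [hv, hAv, nsq_elim, nsq_elim, nsq_zero, zero_add]
      have h6 := hLc (v ∘ Sum.inl)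
      linarith [nsq_nonneg (v ∘ Sum.inr)]
  intro z hz v
  have h1 := hAc z hz (Sum.elim v 0)
  simp only [hA] at h1
  rw [hAv, nsq_elim, nsq_elim, nsq_zero, nsq_zero, zero_add, add_zero] at h1
  exact h1

/-- a non-constant holomorphic function with non-negative real part has positive real part -/
lemma re_pos_of {s : ℂ → ℂ} (hd : DifferentiableOn ℂ s disc) (hs : ∀ z ∈ disc, 0 ≤ (s z).re)
    (hsc : ¬ ∃ c, ∀ z ∈ disc, s z = c) : ∀ z ∈ disc, 0 < (s z).re := by
  intro z hz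
  refine lt_of_le_of_ne (hs z hz) fun h0 => ?_
  have hana : AnalyticOnNhd ℂ s disc := hd.analyticOnNhd isOpen_ball
  rcases hana.is_constant_or_isOpen (convex_ball _ _).isPreconnected with h | h
  · exact hsc h
  · have ho := h disc subset_rfl isOpen_ball
    obtain ⟨ε, hε, hb⟩ := Metric.isOpen_iff.1 ho (s z) ⟨z, hz, rfl⟩
    have hm : s z - ((ε / 2 : ℝ) : ℂ) ∈ ball (s z) ε := by
      rw [mem_ball, dist_eq_norm]
      have : s z - ((ε / 2 : ℝ) : ℂ) - s z = -((ε / 2 : ℝ) : ℂ) := by ring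
      rw [this, norm_neg, Complex.norm_real, Real.norm_eq_abs, abs_of_pos (by linarith)]
      linarith
    obtain ⟨w, hw, hws⟩ := hb hm
    have h1 := hs w hw
    rw [hws, Complex.sub_re, Complex.ofReal_re, ← h0] at h1
    linarith

/-- **Clark measures of the scalar functions `y* g x`.** If `y* g x`, for unit vectors `x`, `y`, has
a Clark measure with a non-zero singular part, then `g` is not `κ_W` of a left regular `W`. -/
theorem clark_scalar {g : ℂ → Matrix n m ℂ} {s : ℂ → ℂ} {x : m → ℂ} {y : n → ℂ} (hx : nsq x = 1)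
    (hy : nsq y = 1) (hd : DifferentiableOn ℂ s disc) (hs : ∀ z ∈ disc, 0 ≤ (s z).re)
    (hsb : ∀ᵐ ζ ∂circleMeasure, ∃ L, HasBdryValue s ζ L ∧ L.re = 0)
    (hsc : ¬ ∃ c, ∀ z ∈ disc, s z = c)
    (h : ∀ z ∈ disc, 2 * (s z).re
      ≤ ((1 + star y ⬝ᵥ (g z *ᵥ x)) / (1 - star y ⬝ᵥ (g z *ᵥ x))).re) :
    ¬ ∃ W : ℂ → Matrix (m ⊕ n) (m ⊕ n) ℂ, LeftRegular W ∧ IsKappa W g := by
  intro hW
  have hg : IsSchur g := by
    obtain ⟨W, hW, hWg⟩ := hW
    exact schur_of_kappa hW.jInner hWg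
  have hga : ∀ z ∈ disc, AnalyticPt g z := analyticPt_iff.1 hg.1
  have hgc : ∀ z ∈ disc, ∀ v, nsq (g z *ᵥ v) ≤ nsq v := fun z hz => (one_sub_iff _).1 (hg.2 z hz)
  have hsa : ∀ z ∈ disc, AnalyticAt ℂ s z := fun z hz => hd.analyticAt (isOpen_ball.mem_nhds hz)
  have hx0 : x ≠ 0 := by
    rintro rfl
    rw [nsq_zero] at hx
    exact zero_ne_one hx
  have hy' : nsq (-y) = 1 := by rw [nsq_neg, hy]
  have hpos := re_pos_of hd hs hsc
  set γ : ℂ → ℂ := fun z => star y ⬝ᵥ (g z *ᵥ x) with hγ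
  have hγa : ∀ z ∈ disc, AnalyticAt ℂ γ z := fun z hz => analyticAt_form (hga z hz) _ _
  have h1γ : ∀ z ∈ disc, (1 : ℂ) - γ z ≠ 0 := by
    intro z hz h0
    have h1 := h z hz
    change 2 * (s z).re ≤ ((1 + γ z) / (1 - γ z)).re at h1
    rw [h0, div_zero, Complex.zero_re] at h1
    linarith [hpos z hz]
  have hinvre : ∀ z ∈ disc, (s z).re + 1 / 2 ≤ ((1 - γ z)⁻¹).re := by
    intro z hz
    have h1 := h z hz
    change 2 * (s z).re ≤ ((1 + γ z) / (1 - γ z)).re at h1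
    have h2 : (1 + γ z) / (1 - γ z) = ((2 : ℝ) : ℂ) * (1 - γ z)⁻¹ - 1 := by
      have := h1γ z hz
      push_cast
      field_simp
      ring
    rw [h2, Complex.sub_re, Complex.re_ofReal_mul, Complex.one_re] at h1
    linarith
  set F : ℂ → ℂ := fun z => (1 - γ z)⁻¹ - s z with hF
  have hFre : ∀ z ∈ disc, 1 / 2 ≤ (F z).re := by
    intro z hz
    have := hinvre z hz
    simp only [hF, Complex.sub_re]
    linarith
  have hF0 : ∀ z ∈ disc, F z ≠ 0 := by
    intro z hz h0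
    have := hFre z hz
    rw [h0, Complex.zero_re] at this
    norm_num at this
  have hFb : ∀ z ∈ disc, ‖(F z)⁻¹‖ ≤ 2 := by
    intro z hz
    have h1 := (hFre z hz).trans ((le_abs_self _).trans (Complex.abs_re_le_norm _))
    rw [norm_inv]
    calc ‖F z‖⁻¹ ≤ (1 / 2)⁻¹ := inv_anti₀ (by norm_num) h1
      _ = 2 := by norm_num
  -- majorants
  have hγd : DifferentiableOn ℂ γ disc := fun z hz =>
    (hγa z hz).differentiableAt.differentiableWithinAt
  obtain ⟨hMinv, g0, -, -, hTinv⟩ := maj_of_re (τ := fun z => 2 * (1 - γ z)⁻¹)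
    (((hγd.const_sub 1).inv h1γ).const_mul 2) (by
      intro z hz
      have h1 := hinvre z hz
      have h2 := hs z hz
      have : ((2 : ℂ) * (1 - γ z)⁻¹).re = 2 * ((1 - γ z)⁻¹).re := by
        have : (2 : ℂ) = ((2 : ℝ) : ℂ) := by push_cast; rfl
        rw [this, Complex.re_ofReal_mul]
      rw [this]
      linarith)
  have hMinv' : Maj (fun z => (1 - γ z)⁻¹) :=
    ((Maj.const (1 / 2)).mul hMinv).congr fun z _ => by ring
  have hMs : Maj s := ((smirnov_re hd hs 0 1).maj).congr fun z _ => by ring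
  have hMF : Maj (fun z => (F z)⁻¹) := Maj.of_bound hFb
  set u : ℂ → n → ℂ := fun z => g z *ᵥ x + -y with hu
  have hua : ∀ z ∈ disc, ∀ i, AnalyticAt ℂ (fun z => u z i) z := by
    intro z hz i
    simp only [hu, Pi.add_apply, mulVec, dotProduct]
    refine AnalyticAt.add (Finset.analyticAt_fun_sum _ fun j _ => ?_) analyticAt_const
    exact (hga z hz i j).mul analyticAt_const
  have huM : ∀ i, Maj (fun z => u z i) := by
    intro i
    simp only [hu, Pi.add_apply, mulVec, dotProduct]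
    refine Maj.add (Maj.sum _ fun j _ => Maj.mul ?_ (Maj.const _)) (Maj.const _)
    exact Maj.of_bound fun z hz => entry_le_one (hgc z hz) i j
  have hyu : ∀ B : Matrix n m ℂ, star (-y) ⬝ᵥ (B *ᵥ x + -y) = 1 - star y ⬝ᵥ (B *ᵥ x) := by
    intro B
    have hyy : star y ⬝ᵥ y = 1 := by rw [star_dot_self, hy]; simp
    rw [star_neg, neg_dotProduct, dotProduct_add, dotProduct_neg, hyy]
    ring
  -- the inverse of `1 - s u (-y)*`
  have hEalg : ∀ (B : Matrix n m ℂ) (L : ℂ), (1 : ℂ) - star y ⬝ᵥ (B *ᵥ x) ≠ 0 →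
      (1 - star y ⬝ᵥ (B *ᵥ x))⁻¹ - L ≠ 0 →
      (1 + (L * ((1 - star y ⬝ᵥ (B *ᵥ x))⁻¹ * ((1 - star y ⬝ᵥ (B *ᵥ x))⁻¹ - L)⁻¹)) •
          vecMulVec (B *ᵥ x + -y) (star (-y)))
        * (1 - L • vecMulVec (B *ᵥ x + -y) (star (-y))) = 1 := by
    intro B L h1 h2
    set c := star y ⬝ᵥ (B *ᵥ x) with hc
    rw [Matrix.add_mul, Matrix.one_mul, Matrix.mul_sub, Matrix.mul_one, Matrix.smul_mul,
      Matrix.mul_smul, Matrix.mul_vecMulVec, vv_vec, hyu, smul_vecMulVec, smul_smul, smul_smul]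
    rw [← hc, ← sub_smul, sub_add_eq_add_sub, add_sub_assoc, ← sub_smul]
    have : L * ((1 - c)⁻¹ * ((1 - c)⁻¹ - L)⁻¹)
        - L * ((1 - c)⁻¹ * ((1 - c)⁻¹ - L)⁻¹) * L * (1 - c) - L = 0 := by
      have h3 : ((1 - c)⁻¹ - L)⁻¹ * (1 - L * (1 - c)) = 1 - c := by
        have h4 : 1 - L * (1 - c) = (1 - c) * ((1 - c)⁻¹ - L) := by
          linear_combination (-1) * mul_inv_cancel₀ h1
        rw [h4, mul_comm, mul_assoc, mul_inv_cancel₀ h2, mul_one]
      calc L * ((1 - c)⁻¹ * ((1 - c)⁻¹ - L)⁻¹)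
            - L * ((1 - c)⁻¹ * ((1 - c)⁻¹ - L)⁻¹) * L * (1 - c) - L
          = L * (1 - c)⁻¹ * (((1 - c)⁻¹ - L)⁻¹ * (1 - L * (1 - c))) - L := by ring
        _ = 0 := by rw [h3, mul_assoc, inv_mul_cancel₀ h1]; ring
    rw [this, zero_smul, add_zero]
  set k : ℂ → ℂ := fun z => s z * ((1 - γ z)⁻¹ * (F z)⁻¹) with hk
  have hka : ∀ z ∈ disc, AnalyticAt ℂ k z := by
    intro z hz
    have h1 : AnalyticAt ℂ (fun z => (1 - γ z)⁻¹) z :=
      (analyticAt_const.sub (hγa z hz)).inv (h1γ z hz)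
    have h2 : AnalyticAt ℂ (fun z => (F z)⁻¹) z := (h1.sub (hsa z hz)).inv (hF0 z hz)
    exact (hsa z hz).mul (h1.mul h2)
  have hkM : Maj k := hMs.mul (hMinv'.mul hMF)
  set E : ℂ → Matrix n n ℂ := fun z => 1 + k z • vecMulVec (u z) (star (-y)) with hE
  set Fm : ℂ → Matrix n m ℂ := fun z => g z + s z • vecMulVec (u z) (star x) with hFm
  have hEa : ∀ z ∈ disc, AnalyticPt E z := by
    intro z hz i j
    have h5 : AnalyticAt ℂ (fun z => (1 : Matrix n n ℂ) i j + k z * (u z i * star ((-y) j))) z :=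
      analyticAt_const.add ((hka z hz).mul ((hua z hz i).mul analyticAt_const))
    exact h5
  have hEM : MajM E := by
    intro i j
    have h5 : Maj (fun z => (1 : Matrix n n ℂ) i j + k z * (u z i * star ((-y) j))) :=
      (Maj.const _).add (hkM.mul ((huM i).mul (Maj.const _)))
    exact h5
  have hFma : ∀ z ∈ disc, AnalyticPt Fm z := by
    intro z hz i j
    have h5 : AnalyticAt ℂ (fun z => g z i j + s z * (u z i * star (x j))) z :=
      (hga z hz i j).add ((hsa z hz).mul ((hua z hz i).mul analyticAt_const))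
    exact h5
  have hFmM : MajM Fm := by
    intro i j
    have h5 : Maj (fun z => g z i j + s z * (u z i * star (x j))) :=
      (Maj.of_bound fun z hz => entry_le_one (hgc z hz) i j).add
        (hMs.mul ((huM i).mul (Maj.const _)))
    exact h5
  have hEe : ∀ z ∈ disc, E z * (1 - s z • vecMulVec (g z *ᵥ x + -y) (star (-y))) = 1 :=
    fun z hz => hEalg (g z) (s z) (h1γ z hz) (hF0 z hz)
  -- boundary values
  have hGbd : ∀ᵐ ζ ∂σ, ∃ Γ, HasBdryValue g ζ Γ := by
    have h1 : ∀ p : n × m, ∀ᵐ ζ ∂σ, ∃ L, HasBdryValue (fun z => g z p.1 p.2) ζ L :=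
      fun p => fatou (hg.1 p.1 p.2) (fun z hz => entry_le_one (hgc z hz) p.1 p.2)
    filter_upwards [ae_all_iff.2 h1] with ζ hζ
    choose L hL using hζ
    exact ⟨Matrix.of fun i j => L (i, j), tendsto_entries.2 fun i j => hL (i, j)⟩
  have hg'c : ∀ z ∈ disc, ∀ v, nsq ((E z * Fm z) *ᵥ v) ≤ nsq v := by
    apply rect_max (fun z hz => (hEa z hz).mul (hFma z hz)) (hEM.mul hFmM)
    filter_upwards [hGbd, hTinv, hsb, ae_norm] with ζ hζ hT hL hn
    obtain ⟨Γ, hΓ⟩ := hζ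
    obtain ⟨T, hT, -⟩ := hT
    obtain ⟨L, hL, hL0⟩ := hL
    have hΓc : ∀ v, nsq (Γ *ᵥ v) ≤ nsq v := by
      intro v
      apply le_of_tendsto (tendsto_nsq hΓ v)
      filter_upwards [eventually_r] with r hr
      exact hgc _ (dil_mem hr hn) v
    have hγ1 : Tendsto (fun r : ℝ => γ (r * ζ)) (𝓝[<] 1) (𝓝 (star y ⬝ᵥ (Γ *ᵥ x))) :=
      tendsto_form hΓ _ _
    set c := star y ⬝ᵥ (Γ *ᵥ x) with hc
    have hc1 : (1 : ℂ) - c ≠ 0 := by
      have h2 : Tendsto (fun r : ℝ => (1 - γ (r * ζ)) * (2 * (1 - γ (r * ζ))⁻¹)) (𝓝[<] 1)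
          (𝓝 ((1 - c) * T)) := (hγ1.const_sub 1).mul hT
      have h3 : (1 - c) * T = 2 := by
        refine tendsto_nhds_unique h2 (tendsto_const_nhds.congr' ?_)
        filter_upwards [eventually_r] with r hr
        have := h1γ _ (dil_mem hr hn)
        field_simp
      intro h0
      rw [h0, zero_mul] at h3
      exact two_ne_zero h3.symm
    have hi1 : Tendsto (fun r : ℝ => (1 - γ (r * ζ))⁻¹) (𝓝[<] 1) (𝓝 (1 - c)⁻¹) :=
      (hγ1.const_sub 1).inv₀ hc1
    have hF1 : Tendsto (fun r : ℝ => F (r * ζ)) (𝓝[<] 1) (𝓝 ((1 - c)⁻¹ - L)) := hi1.sub hL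
    have hF2 : (1 - c)⁻¹ - L ≠ 0 := by
      have h3 : 1 / 2 ≤ ((1 - c)⁻¹ - L).re := by
        apply ge_of_tendsto ((Complex.continuous_re.tendsto _).comp hF1)
        filter_upwards [eventually_r] with r hr
        exact hFre _ (dil_mem hr hn)
      intro h0
      rw [h0, Complex.zero_re] at h3
      norm_num at h3
    have hk1 : Tendsto (fun r : ℝ => k (r * ζ)) (𝓝[<] 1)
        (𝓝 (L * ((1 - c)⁻¹ * ((1 - c)⁻¹ - L)⁻¹))) := Tendsto.mul hL (hi1.mul (hF1.inv₀ hF2))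
    have hu1 : Tendsto (fun r : ℝ => u (r * ζ)) (𝓝[<] 1) (𝓝 (Γ *ᵥ x + -y)) := by
      have hcc : Continuous fun B : Matrix n m ℂ => B *ᵥ x + -y := by fun_prop
      exact (hcc.tendsto Γ).comp hΓ
    have hvn : ∀ t : n → ℂ, Continuous fun w : n → ℂ => vecMulVec w t := by
      intro t
      refine continuous_matrix fun i j => ?_
      simp only [vecMulVec_apply]
      fun_prop
    have hvm : ∀ t : m → ℂ, Continuous fun w : n → ℂ => vecMulVec w t := by
      intro t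
      refine continuous_matrix fun i j => ?_
      simp only [vecMulVec_apply]
      fun_prop
    have hE1 : Tendsto (fun r : ℝ => E (r * ζ)) (𝓝[<] 1)
        (𝓝 (1 + (L * ((1 - c)⁻¹ * ((1 - c)⁻¹ - L)⁻¹)) •
          vecMulVec (Γ *ᵥ x + -y) (star (-y)))) :=
      tendsto_const_nhds.add (hk1.smul (((hvn (star (-y))).tendsto _).comp hu1))
    have hFm1 : Tendsto (fun r : ℝ => Fm (r * ζ)) (𝓝[<] 1)
        (𝓝 (Γ + L • vecMulVec (Γ *ᵥ x + -y) (star x))) :=
      Tendsto.add hΓ (Tendsto.smul hL (((hvm (star x)).tendsto _).comp hu1))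
    refine ⟨_, tendsto_mmul hE1 hFm1, ?_⟩
    exact contact_bdry hΓc hx hy' hL0 (hEalg Γ L hc1 hF2)
  have hg' : IsSchur (fun z => E z * Fm z) :=
    ⟨analyticPt_iff.2 fun z hz => (hEa z hz).mul (hFma z hz),
      fun z hz => (one_sub_iff _).2 (hg'c z hz)⟩
  refine not_const_SG hsc hx0 (((kappa_lr_iff g).1 hW).2 _
    (aSingular_SG hd hs hsb (hx.trans hy'.symm)) ⟨_, hg', fun z hz => ?_⟩)
  obtain ⟨k1, k2⟩ := contact_alg hx hy' (s z) (hEe z hz)
  have b11 : (SG s x (-y) z).toBlocks₁₁ = 1 - s z • vecMulVec x (star x) := by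
    ext i j
    simp [SG, toBlocks₁₁, NV, bv, vecMulVec_apply, Matrix.one_apply, sub_eq_add_neg]
  have b12 : (SG s x (-y) z).toBlocks₁₂ = s z • vecMulVec x (star (-y)) := by
    ext i j
    simp [SG, toBlocks₁₂, NV, bv, vecMulVec_apply]
  have b21 : (SG s x (-y) z).toBlocks₂₁ = -(s z • vecMulVec (-y) (star x)) := by
    ext i j
    simp [SG, toBlocks₂₁, NV, bv, vecMulVec_apply]
  have b22 : (SG s x (-y) z).toBlocks₂₂ = 1 + s z • vecMulVec (-y) (star (-y)) := by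
    ext i j
    simp [SG, toBlocks₂₂, NV, bv, vecMulVec_apply, Matrix.one_apply]
  rw [b11, b12, b21, b22]
  simp only [hFm, hu]
  rw [k1, k2]

end Pool.Agent.H2RJ
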